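import Pool.Agent.H99.LU.CStmts

/-!
Project LU, part C: the homology of the octahedralisation in the top degree (module OCT).

Compatible families: a function `g : Finset VL → X → F` gives for disjoint `P`, `N` the function
`pn P N g = ∑_{B ⊆ N} (-1)^|B| g (P ∪ B)`, so that
`pn P (N ∪ x) g + pn (P ∪ x) N g = pn P N g`. Families with all the antisymmetries over the cliques
in a set `S` are extended vertex by vertex.
-/

set_option autoImplicit false
set_option linter.unusedVariables false
set_option linter.unusedSectionVars false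

open scoped BigOperators

noncomputable section

namespace Pool.LU.OctAux

section lin

variable {F : Type} [Field F] {Y Z : Type} [AddCommGroup Y] [Module F Y] [FiniteDimensional F Y]
  [AddCommGroup Z] [Module F Z]

theorem rank_null (G : Submodule F Y) (f : Y →ₗ[F] Z) :
    Module.finrank F ↥(G.map f) + Module.finrank F ↥(G ⊓ LinearMap.ker f) =
      Module.finrank F ↥G := by
  have h := LinearMap.finrank_range_add_finrank_ker (f.domRestrict G)
  have h1 : LinearMap.range (f.domRestrict G) = G.map f := LinearMap.range_domRestrict G f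
  have h2 : Module.finrank F ↥(LinearMap.ker (f.domRestrict G)) =
      Module.finrank F ↥(G ⊓ LinearMap.ker f) := by
    have h3 : (LinearMap.ker (f.domRestrict G)).map G.subtype = G ⊓ LinearMap.ker f := by
      ext y
      simp only [Submodule.mem_map, LinearMap.mem_ker, LinearMap.domRestrict_apply,
        Submodule.coe_subtype, Submodule.mem_inf]
      constructor
      · rintro ⟨a, ha, rfl⟩
        exact ⟨a.2, ha⟩
      · rintro ⟨h4, h5⟩
        exact ⟨⟨y, h4⟩, h5, rfl⟩
    rw [← h3]
    exact (LinearEquiv.finrank_eq (Submodule.equivMapOfInjective G.subtype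
      (Submodule.injective_subtype G) _))
  rw [h1, h2] at h
  exact h

/-- The dimension of the image drops at most by the codimension. -/
theorem map_drop (G G' : Submodule F Y) (hG : G' ≤ G) (f : Y →ₗ[F] Z) :
    Module.finrank F ↥(G.map f) + Module.finrank F ↥G' ≤
      Module.finrank F ↥(G'.map f) + Module.finrank F ↥G := by
  have h1 := rank_null G f
  have h2 := rank_null G' f
  have h3 : Module.finrank F ↥(G' ⊓ LinearMap.ker f) ≤
      Module.finrank F ↥(G ⊓ LinearMap.ker f) :=
    Submodule.finrank_mono (inf_le_inf_right _ hG)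
  omega

theorem inf_drop (G M N : Submodule F Y) (hG : G ≤ M) (hN : N ≤ M) :
    Module.finrank F ↥G + Module.finrank F ↥N ≤
      Module.finrank F ↥(G ⊓ N) + Module.finrank F ↥M := by
  have h1 := Submodule.finrank_sup_add_finrank_inf_eq G N
  have h2 : Module.finrank F ↥(G ⊔ N) ≤ Module.finrank F ↥M :=
    Submodule.finrank_mono (sup_le hG hN)
  omega

/-- The image under `f` of `G`, of `G ⊓ φ(M)`, where `φ` is an endomorphism with `φ(M) ≤ M` and
the kernel of `φ` on `M` is small. -/
theorem step_dim (G M : Submodule F Y) (hG : G ≤ M) (φ : Y →ₗ[F] Y) (hφ : M.map φ ≤ M)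
    (f : Y →ₗ[F] Z) :
    Module.finrank F ↥(G.map f) ≤ Module.finrank F ↥((G ⊓ M.map φ).map f) +
      Module.finrank F ↥(M ⊓ LinearMap.ker φ) := by
  have h1 := rank_null M φ
  have h2 := inf_drop G M (M.map φ) hG hφ
  have h3 := map_drop G (G ⊓ M.map φ) inf_le_left f
  omega

end lin

section pn

variable (F : Type) [Field F] {VL : Type} [DecidableEq VL] (X : Type)

/-- `pn P N g = ∑_{B ⊆ N} (-1)^|B| g (P ∪ B)` -/
def pn (P N : Finset VL) : (Finset VL → X → F) →ₗ[F] (X → F) where
  toFun g := fun y => ∑ B ∈ N.powerset, (-1) ^ B.card * g (P ∪ B) y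
  map_add' g g' := by
    funext y
    simp only [Pi.add_apply, mul_add, Finset.sum_add_distrib]
  map_smul' c g := by
    funext y
    simp only [Pi.smul_apply, smul_eq_mul, RingHom.id_apply, Finset.mul_sum]
    exact Finset.sum_congr rfl fun v _ => by ring

theorem pn_apply (P N : Finset VL) (g : Finset VL → X → F) (y : X) :
    pn F X P N g y = ∑ B ∈ N.powerset, (-1) ^ B.card * g (P ∪ B) y := rfl

theorem pn_empty (P : Finset VL) (g : Finset VL → X → F) : pn F X P ∅ g = g P := by
  funext y
  rw [pn_apply, Finset.powerset_empty, Finset.sum_singleton, Finset.card_empty, pow_zero, one_mul,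
    Finset.union_empty]

theorem pn_insert (P N : Finset VL) (x : VL) (hx : x ∉ N) (g : Finset VL → X → F) (y : X) :
    pn F X P (insert x N) g y = pn F X P N g y - pn F X (insert x P) N g y := by
  rw [pn_apply, pn_apply, pn_apply, Finset.sum_powerset_insert hx, sub_eq_add_neg,
    ← Finset.sum_neg_distrib]
  congr 1
  refine Finset.sum_congr rfl fun B hB => ?_
  have h1 : x ∉ B := fun h => hx (Finset.mem_powerset.1 hB h)
  rw [Finset.card_insert_of_notMem h1, pow_succ]
  have h2 : P ∪ insert x B = insert x P ∪ B := by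
    ext z
    simp only [Finset.mem_union, Finset.mem_insert]
    tauto
  rw [h2]
  ring

/-- only the values on the sets between `P` and `P ∪ N` matter -/
theorem pn_congr (P N : Finset VL) (g g' : Finset VL → X → F)
    (h : ∀ B, B ⊆ N → g (P ∪ B) = g' (P ∪ B)) : pn F X P N g = pn F X P N g' := by
  funext y
  rw [pn_apply, pn_apply]
  exact Finset.sum_congr rfl fun B hB => by rw [h B (Finset.mem_powerset.1 hB)]

/-- precomposition with a map of `X` -/
def pre (t : X → X) : (Finset VL → X → F) →ₗ[F] (Finset VL → X → F) where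
  toFun g := fun C y => g C (t y)
  map_add' g g' := rfl
  map_smul' c g := rfl

theorem pre_apply (t : X → X) (g : Finset VL → X → F) (C : Finset VL) (y : X) :
    pre F X t g C y = g C (t y) := rfl

theorem pn_pre (P N : Finset VL) (t : X → X) (g : Finset VL → X → F) (y : X) :
    pn F X P N (pre F X t g) y = pn F X P N g (t y) := rfl

end pn

section fam

variable (F : Type) [Field F] {V : Type} {adj : V → V → Prop} (X : XSet V adj) {VL : Type}
  [DecidableEq VL] (adjL : VL → VL → Prop) (j : VL × Bool → V)

/-- The families with all the antisymmetries over the cliques in `S`. -/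
def Fam (S : Finset VL) : Submodule F (Finset VL → X.X → F) where
  carrier := {g | ∀ P N : Finset VL, Disjoint P N → P ∪ N ⊆ S → Clq adjL (P ∪ N) →
    (∀ x ∈ P, ∀ y, pn F X.X P N g (X.ρ (j (x, true)) y) = - pn F X.X P N g y) ∧
    (∀ x ∈ N, ∀ y, pn F X.X P N g (X.ρ (j (x, false)) y) = - pn F X.X P N g y)}
  add_mem' := by
    intro g g' hg hg' P N h1 h2 h3
    refine ⟨fun x hx y => ?_, fun x hx y => ?_⟩
    · rw [map_add, Pi.add_apply, Pi.add_apply, (hg P N h1 h2 h3).1 x hx y,
        (hg' P N h1 h2 h3).1 x hx y]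
      ring
    · rw [map_add, Pi.add_apply, Pi.add_apply, (hg P N h1 h2 h3).2 x hx y,
        (hg' P N h1 h2 h3).2 x hx y]
      ring
  zero_mem' := by
    intro P N h1 h2 h3
    refine ⟨fun x hx y => ?_, fun x hx y => ?_⟩
    · rw [map_zero, Pi.zero_apply, Pi.zero_apply, neg_zero]
    · rw [map_zero, Pi.zero_apply, Pi.zero_apply, neg_zero]
  smul_mem' := by
    intro c g hg P N h1 h2 h3
    refine ⟨fun x hx y => ?_, fun x hx y => ?_⟩
    · rw [map_smul, Pi.smul_apply, Pi.smul_apply, (hg P N h1 h2 h3).1 x hx y, smul_neg]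
    · rw [map_smul, Pi.smul_apply, Pi.smul_apply, (hg P N h1 h2 h3).2 x hx y, smul_neg]

theorem mem_Fam {S : Finset VL} {g : Finset VL → X.X → F} : g ∈ Fam F X adjL j S ↔
    ∀ P N : Finset VL, Disjoint P N → P ∪ N ⊆ S → Clq adjL (P ∪ N) →
    (∀ x ∈ P, ∀ y, pn F X.X P N g (X.ρ (j (x, true)) y) = - pn F X.X P N g y) ∧
    (∀ x ∈ N, ∀ y, pn F X.X P N g (X.ρ (j (x, false)) y) = - pn F X.X P N g y) := Iff.rfl

theorem Fam_mono {S S' : Finset VL} (h : S' ⊆ S) : Fam F X adjL j S ≤ Fam F X adjL j S' := by
  intro g hg P N h1 h2 h3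
  exact hg P N h1 (h2.trans h) h3

theorem Fam_empty : Fam F X adjL j ∅ = ⊤ := by
  rw [eq_top_iff]
  intro g _ P N h1 h2 h3
  have h4 : P ∪ N = ∅ := Finset.subset_empty.1 h2
  rw [Finset.union_eq_empty] at h4
  refine ⟨fun x hx y => ?_, fun x hx y => ?_⟩
  · rw [h4.1] at hx
    exact absurd hx (Finset.notMem_empty x)
  · rw [h4.2] at hx
    exact absurd hx (Finset.notMem_empty x)

/-- invariance of the families over the link of `x` under the two involutions of `x` -/
theorem Fam_pre (S : Finset VL) (t : X.X → X.X)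
    (ht : ∀ x ∈ S, ∀ a, ∀ y, X.ρ (j (x, a)) (t y) = t (X.ρ (j (x, a)) y))
    {g : Finset VL → X.X → F} (hg : g ∈ Fam F X adjL j S) :
    pre F X.X t g ∈ Fam F X adjL j S := by
  intro P N h1 h2 h3
  refine ⟨fun x hx y => ?_, fun x hx y => ?_⟩
  · rw [pn_pre, pn_pre, ← ht x (h2 (Finset.mem_union_left _ hx)), (hg P N h1 h2 h3).1 x hx]
  · rw [pn_pre, pn_pre, ← ht x (h2 (Finset.mem_union_right _ hx)), (hg P N h1 h2 h3).2 x hx]

end fam

section ext

variable (F : Type) [Field F] {V : Type} {adj : V → V → Prop} (X : XSet V adj) {VL : Type}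
  [Fintype VL] [DecidableEq VL] (adjL : VL → VL → Prop) (j : VL × Bool → V)

/-- `1 - ρ u ρ v` -/
def phi (u v : V) : (Finset VL → X.X → F) →ₗ[F] (Finset VL → X.X → F) :=
  LinearMap.id - pre F X.X (fun y => X.ρ u (X.ρ v y))

theorem phi_apply (u v : V) (g : Finset VL → X.X → F) (C : Finset VL) (y : X.X) :
    phi F X u v g C y = g C y - g C (X.ρ u (X.ρ v y)) := rfl

theorem ker_phi (u v : V) :
    Module.finrank F ↥(LinearMap.ker (phi F X u v (VL := VL))) ≤
      2 ^ Fintype.card VL * fx F X u v := by
  have h1 : ∀ g : ↥(LinearMap.ker (phi F X u v (VL := VL))), ∀ C, g.1 C ∈ Fix F X u v := by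
    intro g C y
    have h2 := congrFun (congrFun (LinearMap.mem_ker.1 g.2) C) y
    rw [phi_apply, Pi.zero_apply, Pi.zero_apply, sub_eq_zero] at h2
    exact h2.symm
  let L : ↥(LinearMap.ker (phi F X u v (VL := VL))) →ₗ[F] (Finset VL → ↥(Fix F X u v)) :=
    { toFun := fun g C => ⟨g.1 C, h1 g C⟩
      map_add' := fun g g' => rfl
      map_smul' := fun c g => rfl }
  have hL : Function.Injective L := by
    intro g g' h
    refine Subtype.ext (funext fun C => ?_)
    exact congrArg Subtype.val (congrFun h C)
  have h3 := LinearMap.finrank_le_finrank_of_injective hL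
  refine h3.trans (le_of_eq ?_)
  rw [Module.finrank_pi_fintype, Finset.sum_const, Finset.card_univ, Fintype.card_finset,
    smul_eq_mul]
  rfl

/-- evaluation at the empty clique -/
def ev : (Finset VL → X.X → F) →ₗ[F] (X.X → F) := LinearMap.proj ∅

/-- Extension of families over a new vertex. -/
theorem extend (hadj : ∀ u v, adj u v → adj v u)
    (hj : ∀ x y a b, adj (j (x, a)) (j (y, b)) ↔ adjL x y) (S : Finset VL) (x : VL)
    (hx : x ∉ S) (K : Finset VL) (hK : ∀ z, z ∈ K ↔ z ∈ S ∧ adjL x z)
    (g : Finset VL → X.X → F) (hg : g ∈ Fam F X adjL j S)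
    (hg' : g ∈ (Fam F X adjL j K).map (phi F X (j (x, true)) (j (x, false)))) :
    ∃ g' ∈ Fam F X adjL j (insert x S), g' ∅ = g ∅ := by
  classical
  obtain ⟨m, hm, hmg⟩ := hg'
  have hcomm : ∀ z ∈ K, ∀ a b y, X.ρ (j (z, a)) (X.ρ (j (x, b)) y) =
      X.ρ (j (x, b)) (X.ρ (j (z, a)) y) := by
    intro z hz a b y
    refine X.comm _ _ ?_ y
    exact hadj _ _ ((hj x z b a).2 ((hK z).1 hz).2)
  -- the positive part
  obtain ⟨H, hH⟩ : ∃ H : Finset VL → X.X → F, H = m - pre F X.X (X.ρ (j (x, true))) m := ⟨_, rfl⟩
  have hHK : H ∈ Fam F X adjL j K := by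
    rw [hH]
    refine Submodule.sub_mem _ hm (Fam_pre F X adjL j K _ (fun z hz a y => ?_) hm)
    exact hcomm z hz a true y
  have hHa : ∀ C y, H C (X.ρ (j (x, true)) y) = - H C y := by
    intro C y
    rw [hH]
    simp only [Pi.sub_apply, pre_apply, X.ρρ]
    ring
  have hgK : g ∈ Fam F X adjL j K := Fam_mono F X adjL j (fun z hz => ((hK z).1 hz).1) hg
  have hDa : ∀ C y, (g - H) C (X.ρ (j (x, false)) y) = - (g - H) C y := by
    intro C y
    rw [hH, ← hmg]
    simp only [Pi.sub_apply, pre_apply, phi_apply, X.ρρ]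
    ring
  have hDK : g - H ∈ Fam F X adjL j K := Submodule.sub_mem _ hgK hHK
  obtain ⟨g', hg'⟩ : ∃ g' : Finset VL → X.X → F,
      g' = fun C => if x ∈ C then H (C.erase x) else g C := ⟨_, rfl⟩
  have hg'1 : ∀ C, x ∈ C → g' C = H (C.erase x) := by
    intro C hC
    rw [hg']
    simp only [if_pos hC]
  have hg'2 : ∀ C, x ∉ C → g' C = g C := by
    intro C hC
    rw [hg']
    simp only [if_neg hC]
  have hsub : ∀ P N : Finset VL, P ∪ N ⊆ insert x S → Clq adjL (P ∪ N) → x ∈ P ∪ N →
      ∀ Q, Q ⊆ P ∪ N → x ∉ Q → Q ⊆ K := by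
    intro P N h1 h2 h3 Q h4 h5 z hz
    have h6 : z ≠ x := fun h => h5 (h ▸ hz)
    refine (hK z).2 ⟨?_, h2 x h3 z (h4 hz) (Ne.symm h6)⟩
    rcases Finset.mem_insert.1 (h1 (h4 hz)) with h7 | h7
    · exact absurd h7 h6
    · exact h7
  refine ⟨g', ?_, hg'2 ∅ (Finset.notMem_empty x)⟩
  intro P N hd hPN hcl
  by_cases hxP : x ∈ P
  · have hxN : x ∉ N := fun h => Finset.disjoint_left.1 hd hxP h
    have hpn : pn F X.X P N g' = pn F X.X (P.erase x) N H := by
      funext y
      rw [pn_apply, pn_apply]
      refine Finset.sum_congr rfl fun B hB => ?_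
      have hxB : x ∉ B := fun h => hxN (Finset.mem_powerset.1 hB h)
      rw [hg'1 _ (Finset.mem_union_left _ hxP)]
      have h1 : (P ∪ B).erase x = P.erase x ∪ B := by
        rw [Finset.erase_union_distrib, Finset.erase_eq_of_notMem hxB]
      rw [h1]
    have hs : P.erase x ∪ N ⊆ K := by
      refine hsub P N hPN hcl (Finset.mem_union_left _ hxP) _ ?_ ?_
      · exact Finset.union_subset_union (Finset.erase_subset _ _) (Finset.Subset.refl _)
      · rw [Finset.mem_union]
        rintro (h | h)
        · exact Finset.notMem_erase x P h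
        · exact hxN h
    have hF := hHK (P.erase x) N (Finset.disjoint_of_subset_left (Finset.erase_subset _ _) hd) hs
      (fun a ha b hb hab => hcl a
        (Finset.union_subset_union (Finset.erase_subset _ _) (Finset.Subset.refl _) ha) b
        (Finset.union_subset_union (Finset.erase_subset _ _) (Finset.Subset.refl _) hb) hab)
    rw [hpn]
    refine ⟨fun z hz y => ?_, fun z hz y => hF.2 z hz y⟩
    by_cases hzx : z = x
    · rw [hzx, pn_apply, pn_apply, ← Finset.sum_neg_distrib]
      refine Finset.sum_congr rfl fun B hB => ?_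
      rw [hHa]
      ring
    · exact hF.1 z (Finset.mem_erase.2 ⟨hzx, hz⟩) y
  · by_cases hxN : x ∈ N
    · have hN : N = insert x (N.erase x) := (Finset.insert_erase hxN).symm
      have hpn : pn F X.X P N g' = pn F X.X P (N.erase x) (g - H) := by
        funext y
        have h0 : pn F X.X P N g' y = pn F X.X P (insert x (N.erase x)) g' y := by
          rw [← hN]
        rw [h0, pn_insert F X.X P (N.erase x) x (Finset.notMem_erase x N), map_sub, Pi.sub_apply]
        congr 1
        · refine congrFun (pn_congr F X.X P _ _ _ fun B hB => ?_) y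
          refine hg'2 _ ?_
          rw [Finset.mem_union]
          rintro (h | h)
          · exact hxP h
          · exact Finset.notMem_erase x N (hB h)
        · rw [pn_apply, pn_apply]
          refine Finset.sum_congr rfl fun B hB => ?_
          have hxB : x ∉ B := fun h => Finset.notMem_erase x N (Finset.mem_powerset.1 hB h)
          rw [hg'1 _ (Finset.mem_union_left _ (Finset.mem_insert_self x P))]
          have h1 : (insert x P ∪ B).erase x = P ∪ B := by
            rw [Finset.insert_union, Finset.erase_insert]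
            rw [Finset.mem_union]
            rintro (h | h)
            · exact hxP h
            · exact hxB h
          rw [h1]
      have hs : P ∪ N.erase x ⊆ K := by
        refine hsub P N hPN hcl (Finset.mem_union_right _ hxN) _ ?_ ?_
        · exact Finset.union_subset_union (Finset.Subset.refl _) (Finset.erase_subset _ _)
        · rw [Finset.mem_union]
          rintro (h | h)
          · exact hxP h
          · exact Finset.notMem_erase x N h
      have hF := hDK P (N.erase x) (Finset.disjoint_of_subset_right (Finset.erase_subset _ _) hd)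
        hs (fun a ha b hb hab => hcl a
          (Finset.union_subset_union (Finset.Subset.refl _) (Finset.erase_subset _ _) ha) b
          (Finset.union_subset_union (Finset.Subset.refl _) (Finset.erase_subset _ _) hb) hab)
      rw [hpn]
      refine ⟨fun z hz y => hF.1 z hz y, fun z hz y => ?_⟩
      by_cases hzx : z = x
      · rw [hzx, pn_apply, pn_apply, ← Finset.sum_neg_distrib]
        refine Finset.sum_congr rfl fun B hB => ?_
        rw [hDa]
        ring
      · exact hF.2 z (Finset.mem_erase.2 ⟨hzx, hz⟩) y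
    · have hpn : pn F X.X P N g' = pn F X.X P N g := by
        refine pn_congr F X.X P _ _ _ fun B hB => hg'2 _ ?_
        rw [Finset.mem_union]
        rintro (h | h)
        · exact hxP h
        · exact hxN (hB h)
      rw [hpn]
      refine hg P N hd (fun z hz => ?_) hcl
      rcases Finset.mem_insert.1 (hPN hz) with h | h
      · exfalso
        rw [h, Finset.mem_union] at hz
        rcases hz with h' | h'
        · exact hxP h'
        · exact hxN h'
      · exact h

/-- The functions which extend to families have small codimension. -/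
theorem dim_ev (hadj : ∀ u v, adj u v → adj v u)
    (hj : ∀ x y a b, adj (j (x, a)) (j (y, b)) ↔ adjL x y) (S : Finset VL) :
    Fintype.card X.X ≤ Module.finrank F ↥((Fam F X adjL j S).map (ev F X)) +
      2 ^ Fintype.card VL * ∑ x ∈ S, fx F X (j (x, true)) (j (x, false)) := by
  classical
  induction S using Finset.induction_on with
  | empty =>
    rw [Fam_empty, Submodule.map_top]
    have h1 : LinearMap.range (ev F X (VL := VL)) = ⊤ := by
      rw [LinearMap.range_eq_top]
      intro f
      exact ⟨fun _ => f, rfl⟩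
    rw [h1, finrank_top, Module.finrank_fintype_fun_eq_card]
    exact Nat.le_add_right _ _
  | insert x S hx ih =>
    have h1 := step_dim (Fam F X adjL j S) (Fam F X adjL j (S.filter (fun z => adjL x z)))
      (Fam_mono F X adjL j (Finset.filter_subset _ _)) (phi F X (j (x, true)) (j (x, false)))
      (by
        rintro _ ⟨m, hm, rfl⟩
        refine Submodule.sub_mem _ hm (Fam_pre F X adjL j _ _ (fun z hz a y => ?_) hm)
        have h2 := (Finset.mem_filter.1 hz).2
        rw [X.comm _ _ (hadj _ _ ((hj x z true a).2 h2)),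
          X.comm _ _ (hadj _ _ ((hj x z false a).2 h2))]) (ev F X)
    have h2 : Module.finrank F ↥((Fam F X adjL j S ⊓
        (Fam F X adjL j (S.filter (fun z => adjL x z))).map
          (phi F X (j (x, true)) (j (x, false)))).map (ev F X)) ≤
        Module.finrank F ↥((Fam F X adjL j (insert x S)).map (ev F X)) := by
      refine Submodule.finrank_mono ?_
      rintro _ ⟨g, ⟨hg1, hg2⟩, rfl⟩
      obtain ⟨g', h3, h4⟩ := extend F X adjL j hadj hj S x hx
        (S.filter (fun z => adjL x z)) (fun z => Finset.mem_filter) g hg1 hg2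
      exact ⟨g', h3, h4⟩
    have h3 : Module.finrank F ↥(Fam F X adjL j (S.filter (fun z => adjL x z)) ⊓
        LinearMap.ker (phi F X (j (x, true)) (j (x, false)))) ≤
        2 ^ Fintype.card VL * fx F X (j (x, true)) (j (x, false)) :=
      (Submodule.finrank_mono inf_le_right).trans (ker_phi F X _ _)
    rw [Finset.sum_insert hx, mul_add]
    omega

end ext

section gam

open scoped Classical

variable (F : Type) [Field F] {V : Type} [Fintype V] [DecidableEq V] {adj : V → V → Prop}
  (X : XSet V adj) {VL : Type} [Fintype VL] [DecidableEq VL] (adjL : VL → VL → Prop)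
  (j : VL × Bool → V)

/-- the part over which `σ` has the sign `a` -/
def sp (a : Bool) (σ : Finset V) : Finset VL := Finset.univ.filter (fun x => j (x, a) ∈ σ)

theorem mem_sp (a : Bool) (σ : Finset V) (x : VL) : x ∈ sp j a σ ↔ j (x, a) ∈ σ := by
  simp [sp]

/-- the projection of `σ` -/
def pr (σ : Finset V) : Finset VL := sp j true σ ∪ sp j false σ

theorem mem_pr (σ : Finset V) (x : VL) : x ∈ pr j σ ↔ ∃ a, j (x, a) ∈ σ := by
  rw [pr, Finset.mem_union, mem_sp, mem_sp]
  constructor
  · rintro (h | h)
    · exact ⟨_, h⟩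
    · exact ⟨_, h⟩
  · rintro ⟨a, h⟩
    cases a
    · exact Or.inr h
    · exact Or.inl h

/-- the chain given by a family -/
def Gam (z : Finset VL → Unit → F) : (Finset VL → X.X → F) →ₗ[F] (Finset V → X.X → F) where
  toFun g := fun σ y => if (∀ v ∈ σ, v ∈ Set.range j) ∧ Clq adj σ then
    z (pr j σ) () * pn F X.X (sp j true σ) (sp j false σ) g y else 0
  map_add' g g' := by
    funext σ y
    simp only [Pi.add_apply, map_add]
    split_ifs
    · ring
    · ring
  map_smul' c g := by
    funext σ y
    simp only [Pi.smul_apply, map_smul, smul_eq_mul, RingHom.id_apply]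
    split_ifs
    · ring
    · ring

theorem Gam_apply (z : Finset VL → Unit → F) (g : Finset VL → X.X → F) (σ : Finset V) (y : X.X) :
    Gam F X j z g σ y = if (∀ v ∈ σ, v ∈ Set.range j) ∧ Clq adj σ then
    z (pr j σ) () * pn F X.X (sp j true σ) (sp j false σ) g y else 0 := rfl

variable (hji : Function.Injective j) (hj : ∀ x y a b, adj (j (x, a)) (j (y, b)) ↔ adjL x y)
  (hirr : ∀ x, ¬ adjL x x)

include hji hj hirr

theorem not_both {σ : Finset V} (h : Clq adj σ) (x : VL) (a b : Bool) (h1 : j (x, a) ∈ σ)
    (h2 : j (x, b) ∈ σ) : a = b := by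
  by_contra hab
  have h3 : j (x, a) ≠ j (x, b) := fun h4 => hab (by simpa using hji h4)
  exact hirr x ((hj x x a b).1 (h _ h1 _ h2 h3))

theorem sp_disj {σ : Finset V} (h : Clq adj σ) : Disjoint (sp j true σ) (sp j false σ) := by
  rw [Finset.disjoint_left]
  intro x h1 h2
  rw [mem_sp] at h1 h2
  have h3 : true = false := not_both adjL j hji hj hirr h x _ _ h1 h2
  exact absurd h3 (by decide)

theorem pr_clq {σ : Finset V} (h : Clq adj σ) : Clq adjL (pr j σ) := by
  intro x hx y hy hxy
  obtain ⟨a, ha⟩ := (mem_pr j σ x).1 hx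
  obtain ⟨b, hb⟩ := (mem_pr j σ y).1 hy
  refine (hj x y a b).1 (h _ ha _ hb fun h4 => hxy ?_)
  exact congrArg Prod.fst (hji h4)

theorem card_pr {σ : Finset V} (h0 : ∀ v ∈ σ, v ∈ Set.range j) (h : Clq adj σ) :
    (pr j σ).card = σ.card := by
  have h1 : σ = ((sp j true σ).image fun x => j (x, true)) ∪
      ((sp j false σ).image fun x => j (x, false)) := by
    ext v
    rw [Finset.mem_union, Finset.mem_image, Finset.mem_image]
    constructor
    · intro hv
      obtain ⟨⟨x, a⟩, rfl⟩ := h0 v hv
      cases a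
      · exact Or.inr ⟨x, (mem_sp j _ _ _).2 hv, rfl⟩
      · exact Or.inl ⟨x, (mem_sp j _ _ _).2 hv, rfl⟩
    · rintro (⟨x, hx, rfl⟩ | ⟨x, hx, rfl⟩)
      · exact (mem_sp j _ _ _).1 hx
      · exact (mem_sp j _ _ _).1 hx
  have h2 : Disjoint ((sp j true σ).image fun x => j (x, true))
      ((sp j false σ).image fun x => j (x, false)) := by
    rw [Finset.disjoint_left]
    intro v h3 h4
    obtain ⟨x, _, hx⟩ := Finset.mem_image.1 h3
    obtain ⟨y, _, hy⟩ := Finset.mem_image.1 h4
    have h5 : true = false := congrArg Prod.snd (hji (hx.trans hy.symm))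
    exact absurd h5 (by decide)
  have hinj : ∀ a, Function.Injective (fun x : VL => j (x, a)) := fun a x y hxy =>
    congrArg Prod.fst (hji hxy)
  have h3 : σ.card = (sp j true σ).card + (sp j false σ).card := by
    conv_lhs => rw [h1]
    rw [Finset.card_union_of_disjoint h2, Finset.card_image_of_injective _ (hinj true),
      Finset.card_image_of_injective _ (hinj false)]
  rw [h3, pr, Finset.card_union_of_disjoint (sp_disj adjL j hji hj hirr h)]

theorem Gam_mem (z : Finset VL → Unit → F) (d : ℕ)
    (hz : ∀ σ, z σ ≠ 0 → σ.card = d + 1 ∧ Clq adjL σ) (g : Finset VL → X.X → F)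
    (hg : g ∈ Fam F X adjL j Finset.univ) :
    Gam F X j z g ∈ Ch F adj X.ρ (Set.range j) (d + 1) := by
  refine ⟨fun σ hσ => ?_, fun σ v hv y => ?_⟩
  · obtain ⟨y, hy⟩ := Function.ne_iff.1 hσ
    rw [Gam_apply, Pi.zero_apply] at hy
    split_ifs at hy with h
    · have hz' : z (pr j σ) ≠ 0 := fun h' => hy (by rw [h', Pi.zero_apply, zero_mul])
      refine ⟨?_, h.1, h.2⟩
      rw [← card_pr adjL j hji hj hirr h.1 h.2]
      exact (hz _ hz').1
    · exact absurd rfl hy
  · rw [Gam_apply, Gam_apply]
    split_ifs with h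
    · obtain ⟨⟨x, a⟩, rfl⟩ := h.1 v hv
      have hF := hg (sp j true σ) (sp j false σ) (sp_disj adjL j hji hj hirr h.2)
        (Finset.subset_univ _) (pr_clq adjL j hji hj hirr h.2)
      cases a
      · rw [hF.2 x ((mem_sp j _ _ _).2 hv) y]
        ring
      · rw [hF.1 x ((mem_sp j _ _ _).2 hv) y]
        ring
    · rw [neg_zero]

theorem sp_insert (τ : Finset V) (x : VL) (a b : Bool) :
    sp j b (insert (j (x, a)) τ) = if a = b then insert x (sp j b τ) else sp j b τ := by
  ext y
  rw [mem_sp, Finset.mem_insert]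
  split_ifs with h
  · rw [Finset.mem_insert, mem_sp, h]
    constructor
    · rintro (h1 | h1)
      · exact Or.inl (congrArg Prod.fst (hji h1))
      · exact Or.inr h1
    · rintro (h1 | h1)
      · exact Or.inl (by rw [h1])
      · exact Or.inr h1
  · rw [mem_sp]
    constructor
    · rintro (h1 | h1)
      · exact absurd (congrArg Prod.snd (hji h1)).symm h
      · exact h1
    · exact Or.inr

theorem pr_insert (τ : Finset V) (x : VL) (a : Bool) :
    pr j (insert (j (x, a)) τ) = insert x (pr j τ) := by
  rw [pr, pr, sp_insert adjL j hji hj hirr, sp_insert adjL j hji hj hirr]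
  cases a
  · rw [if_neg (by decide), if_pos rfl]
    ext y
    simp only [Finset.mem_union, Finset.mem_insert]
    tauto
  · rw [if_pos rfl, if_neg (by decide)]
    ext y
    simp only [Finset.mem_union, Finset.mem_insert]
    tauto

/-- the value of the chain on a clique enlarged by one vertex -/
theorem Gam_insert (z : Finset VL → Unit → F) (hz : ∀ σ, z σ ≠ 0 → Clq adjL σ)
    (g : Finset VL → X.X → F) (τ : Finset V) (h0 : ∀ v ∈ τ, v ∈ Set.range j) (h : Clq adj τ)
    (x : VL) (hx : x ∉ pr j τ) (y : X.X) :
    Gam F X j z g (insert (j (x, true)) τ) y = z (insert x (pr j τ)) () *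
      pn F X.X (insert x (sp j true τ)) (sp j false τ) g y ∧
    Gam F X j z g (insert (j (x, false)) τ) y = z (insert x (pr j τ)) () *
      pn F X.X (sp j true τ) (insert x (sp j false τ)) g y := by
  have key : ∀ a, Gam F X j z g (insert (j (x, a)) τ) y = z (insert x (pr j τ)) () *
      pn F X.X (sp j true (insert (j (x, a)) τ)) (sp j false (insert (j (x, a)) τ)) g y := by
    intro a
    rw [Gam_apply, pr_insert adjL j hji hj hirr]
    split_ifs with h1
    · rfl
    · by_cases h2 : z (insert x (pr j τ)) = 0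
      · rw [h2, Pi.zero_apply, zero_mul]
      · exfalso
        refine h1 ⟨fun v hv => ?_, ?_⟩
        · rcases Finset.mem_insert.1 hv with h3 | h3
          · exact ⟨_, h3.symm⟩
          · exact h0 v h3
        · have h3 := hz _ h2
          have h4 : ∀ v ∈ τ, adj (j (x, a)) v ∧ adj v (j (x, a)) := by
            intro v hv
            obtain ⟨⟨w, b⟩, rfl⟩ := h0 v hv
            have h5 : w ∈ pr j τ := (mem_pr j τ w).2 ⟨b, hv⟩
            have h6 : x ≠ w := fun h' => hx (h' ▸ h5)
            refine ⟨(hj x w a b).2 (h3 x (Finset.mem_insert_self _ _) w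
              (Finset.mem_insert_of_mem h5) h6), (hj w x b a).2 (h3 w
              (Finset.mem_insert_of_mem h5) x (Finset.mem_insert_self _ _) (Ne.symm h6))⟩
          intro u hu v hv huv
          rcases Finset.mem_insert.1 hu with h5 | h5
          · rcases Finset.mem_insert.1 hv with h6 | h6
            · exact absurd (h5.trans h6.symm) huv
            · rw [h5]
              exact (h4 v h6).1
          · rcases Finset.mem_insert.1 hv with h6 | h6
            · rw [h6]
              exact (h4 u h5).2
            · exact h u h5 v h6 huv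
  constructor
  · rw [key true, sp_insert adjL j hji hj hirr, sp_insert adjL j hji hj hirr, if_pos rfl,
      if_neg (by decide)]
  · rw [key false, sp_insert adjL j hji hj hirr, sp_insert adjL j hji hj hirr,
      if_neg (by decide), if_pos rfl]

theorem sg_eq (o : V → ℕ) (oL : VL → ℕ)
    (ho : ∀ x y a b, x ≠ y → (o (j (x, a)) < o (j (y, b)) ↔ oL x < oL y)) (τ : Finset V)
    (h0 : ∀ v ∈ τ, v ∈ Set.range j) (h : Clq adj τ) (x : VL) (hx : x ∉ pr j τ) (a : Bool) :
    sg o (j (x, a)) τ = sg oL x (pr j τ) := by
  rw [sg, sg]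
  congr 1
  have h1 : pr j (τ.filter fun u => o u < o (j (x, a))) =
      (pr j τ).filter (fun u => oL u < oL x) := by
    ext y
    rw [mem_pr, Finset.mem_filter, mem_pr]
    constructor
    · rintro ⟨b, hb⟩
      rw [Finset.mem_filter] at hb
      have h2 : y ≠ x := fun h' => hx ((mem_pr j τ x).2 ⟨b, h' ▸ hb.1⟩)
      exact ⟨⟨b, hb.1⟩, (ho y x b a h2).1 hb.2⟩
    · rintro ⟨⟨b, hb⟩, h3⟩
      have h2 : y ≠ x := fun h' => hx ((mem_pr j τ x).2 ⟨b, h' ▸ hb⟩)
      exact ⟨b, Finset.mem_filter.2 ⟨hb, (ho y x b a h2).2 h3⟩⟩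
  rw [← h1]
  refine (card_pr adjL j hji hj hirr (fun v hv => h0 v (Finset.filter_subset _ _ hv))
    (fun u hu v hv huv => h u (Finset.filter_subset _ _ hu) v (Finset.filter_subset _ _ hv)
      huv)).symm

theorem bd_Gam (z : Finset VL → Unit → F) (hz : ∀ σ, z σ ≠ 0 → Clq adjL σ)
    (o : V → ℕ) (oL : VL → ℕ)
    (ho : ∀ x y a b, x ≠ y → (o (j (x, a)) < o (j (y, b)) ↔ oL x < oL y))
    (hc : bd F oL Unit z = 0) (g : Finset VL → X.X → F) : bd F o X.X (Gam F X j z g) = 0 := by
  funext τ y
  rw [bd_apply, Pi.zero_apply, Pi.zero_apply]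
  by_cases h : (∀ v ∈ τ, v ∈ Set.range j) ∧ Clq adj τ
  · obtain ⟨h0, h⟩ := h
    have e1 : ∑ v ∈ Finset.univ \ τ, (sg o v τ : F) * Gam F X j z g (insert v τ) y =
        ∑ v : V, if v ∈ τ then 0 else (sg o v τ : F) * Gam F X j z g (insert v τ) y := by
      rw [← Finset.sum_sdiff (Finset.subset_univ τ)]
      have e2 : ∑ v ∈ τ, (if v ∈ τ then (0 : F) else (sg o v τ : F) *
          Gam F X j z g (insert v τ) y) = 0 :=
        Finset.sum_eq_zero fun v hv => if_pos hv
      rw [e2, add_zero]
      refine Finset.sum_congr rfl fun v hv => ?_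
      rw [if_neg (Finset.mem_sdiff.1 hv).2]
    rw [e1, ← Fintype.sum_of_injective j hji
      (fun p => if j p ∈ τ then (0 : F) else (sg o (j p) τ : F) *
        Gam F X j z g (insert (j p) τ) y) _ ?_ (fun p => rfl)]
    · rw [Fintype.sum_prod_type]
      have e3 : ∀ x : VL, ∑ a : Bool, (if j (x, a) ∈ τ then (0 : F) else
          (sg o (j (x, a)) τ : F) * Gam F X j z g (insert (j (x, a)) τ) y) =
          if x ∈ pr j τ then 0 else
            ((sg oL x (pr j τ) : F) * z (insert x (pr j τ)) ()) *
              pn F X.X (sp j true τ) (sp j false τ) g y := by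
        intro x
        split_ifs with hx
        · refine Finset.sum_eq_zero fun a _ => ?_
          split_ifs with h1
          · rfl
          · rw [Gam_apply, if_neg, mul_zero]
            rintro ⟨_, h2⟩
            obtain ⟨b, hb⟩ := (mem_pr j τ x).1 hx
            have h3 := not_both adjL j hji hj hirr h2 x a b (Finset.mem_insert_self _ _)
              (Finset.mem_insert_of_mem hb)
            rw [h3] at h1
            exact h1 hb
        · have h1 : ∀ a, j (x, a) ∉ τ := fun a ha => hx ((mem_pr j τ x).2 ⟨a, ha⟩)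
          rw [Fintype.sum_bool, if_neg (h1 _), if_neg (h1 _),
            (Gam_insert F X adjL j hji hj hirr z hz g τ h0 h x hx y).1,
            (Gam_insert F X adjL j hji hj hirr z hz g τ h0 h x hx y).2,
            sg_eq adjL j hji hj hirr o oL ho τ h0 h x hx,
            sg_eq adjL j hji hj hirr o oL ho τ h0 h x hx, pn_insert F X.X]
          · ring
          · exact fun h2 => hx ((mem_pr j τ x).2 ⟨false, (mem_sp j _ _ _).1 h2⟩)
      rw [Finset.sum_congr rfl fun x _ => e3 x]
      have e4 := congrFun (congrFun hc (pr j τ)) ()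
      rw [bd_apply, Pi.zero_apply, Pi.zero_apply] at e4
      have e5 : ∑ x : VL, (if x ∈ pr j τ then (0 : F) else
            ((sg oL x (pr j τ) : F) * z (insert x (pr j τ)) ()) *
              pn F X.X (sp j true τ) (sp j false τ) g y) =
          (∑ x ∈ Finset.univ \ pr j τ, (sg oL x (pr j τ) : F) * z (insert x (pr j τ)) ()) *
              pn F X.X (sp j true τ) (sp j false τ) g y := by
        rw [← Finset.sum_sdiff (Finset.subset_univ (pr j τ)), Finset.sum_mul]
        rw [Finset.sum_eq_zero (s := pr j τ) fun x hx => if_pos hx, add_zero]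
        refine Finset.sum_congr rfl fun x hx => ?_
        rw [if_neg (Finset.mem_sdiff.1 hx).2]
      rw [e5, e4, zero_mul]
    · intro v hv
      split_ifs
      · rfl
      · rw [Gam_apply, if_neg, mul_zero]
        rintro ⟨h1, _⟩
        exact hv (h1 v (Finset.mem_insert_self _ _))
  · refine Finset.sum_eq_zero fun v _ => ?_
    rw [Gam_apply, if_neg, mul_zero]
    rintro ⟨h1, h2⟩
    exact h ⟨fun u hu => h1 u (Finset.mem_insert_of_mem hu), fun u hu w hw =>
      h2 u (Finset.mem_insert_of_mem hu) w (Finset.mem_insert_of_mem hw)⟩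

theorem ker_Gam (hsymm : ∀ x y, adjL x y → adjL y x) (z : Finset VL → Unit → F)
    (hz0 : z ≠ 0) (hz : ∀ σ, z σ ≠ 0 → Clq adjL σ)
    (g : Finset VL → X.X → F) (hg : Gam F X j z g = 0) : g ∅ = 0 := by
  obtain ⟨C, hC⟩ := Function.ne_iff.1 hz0
  have hC' : z C () ≠ 0 := fun h => hC (funext fun u => h)
  have hcl := hz C hC
  have key : ∀ n : ℕ, ∀ P N : Finset VL, Disjoint P N → P ∪ N ⊆ C →
      (C \ (P ∪ N)).card = n → pn F X.X P N g = 0 := by
    intro n
    induction n with
    | zero =>
      intro P N h1 h2 h3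
      have h4 : P ∪ N = C := by
        refine Finset.Subset.antisymm h2 ?_
        rw [Finset.card_eq_zero] at h3
        exact Finset.sdiff_eq_empty_iff_subset.1 h3
      obtain ⟨σ, hσ⟩ : ∃ σ : Finset V, σ = (P.image fun x => j (x, true)) ∪
        (N.image fun x => j (x, false)) := ⟨_, rfl⟩
      have hm1 : ∀ x, j (x, true) ∈ σ ↔ x ∈ P := by
        intro x
        rw [hσ, Finset.mem_union, Finset.mem_image, Finset.mem_image]
        constructor
        · rintro (⟨w, h5, h6⟩ | ⟨w, h5, h6⟩)
          · have h7 : w = x := congrArg Prod.fst (hji h6)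
            rwa [← h7]
          · have h7 : false = true := congrArg Prod.snd (hji h6)
            exact absurd h7 (by decide)
        · exact fun h5 => Or.inl ⟨x, h5, rfl⟩
      have hm2 : ∀ x, j (x, false) ∈ σ ↔ x ∈ N := by
        intro x
        rw [hσ, Finset.mem_union, Finset.mem_image, Finset.mem_image]
        constructor
        · rintro (⟨w, h5, h6⟩ | ⟨w, h5, h6⟩)
          · have h7 : true = false := congrArg Prod.snd (hji h6)
            exact absurd h7 (by decide)
          · have h7 : w = x := congrArg Prod.fst (hji h6)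
            rwa [← h7]
        · exact fun h5 => Or.inr ⟨x, h5, rfl⟩
      have hs1 : sp j true σ = P := by
        ext x
        rw [mem_sp, hm1]
      have hs2 : sp j false σ = N := by
        ext x
        rw [mem_sp, hm2]
      have hr : ∀ v ∈ σ, v ∈ Set.range j := by
        intro v hv
        rw [hσ, Finset.mem_union, Finset.mem_image, Finset.mem_image] at hv
        rcases hv with ⟨w, h5, h6⟩ | ⟨w, h5, h6⟩
        · exact ⟨_, h6⟩
        · exact ⟨_, h6⟩
      have hcσ : Clq adj σ := by
        intro u hu v hv huv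
        obtain ⟨⟨x, a⟩, rfl⟩ := hr u hu
        obtain ⟨⟨w, b⟩, rfl⟩ := hr v hv
        have h5 : ∀ (x : VL) (a : Bool), j (x, a) ∈ σ → x ∈ C := by
          intro x a h6
          rw [← h4, Finset.mem_union]
          cases a
          · exact Or.inr ((hm2 x).1 h6)
          · exact Or.inl ((hm1 x).1 h6)
        refine (hj x w a b).2 (hcl x (h5 x a hu) w (h5 w b hv) fun h6 => ?_)
        subst h6
        cases a
        · cases b
          · exact huv rfl
          · exact Finset.disjoint_left.1 h1 ((hm1 _).1 hv) ((hm2 _).1 hu)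
        · cases b
          · exact Finset.disjoint_left.1 h1 ((hm1 _).1 hu) ((hm2 _).1 hv)
          · exact huv rfl
      funext y
      have h5 := congrFun (congrFun hg σ) y
      rw [Gam_apply, if_pos ⟨hr, hcσ⟩, pr, hs1, hs2, h4, Pi.zero_apply, Pi.zero_apply] at h5
      exact (mul_eq_zero.1 h5).resolve_left hC'
    | succ n ih =>
      intro P N h1 h2 h3
      obtain ⟨x, hx⟩ : (C \ (P ∪ N)).Nonempty := Finset.card_pos.1 (by omega)
      rw [Finset.mem_sdiff, Finset.mem_union, not_or] at hx
      obtain ⟨hxC, hxP, hxN⟩ := hx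
      have h4 : (C \ (insert x (P ∪ N))).card = n := by
        have h5 : C \ insert x (P ∪ N) = (C \ (P ∪ N)).erase x := by
          ext w
          simp only [Finset.mem_sdiff, Finset.mem_insert, Finset.mem_erase]
          tauto
        rw [h5, Finset.card_erase_of_mem]
        · omega
        · rw [Finset.mem_sdiff, Finset.mem_union, not_or]
          exact ⟨hxC, hxP, hxN⟩
      have h6 := ih (insert x P) N (Finset.disjoint_insert_left.2 ⟨hxN, h1⟩)
        (by
          rw [Finset.insert_union]
          exact Finset.insert_subset hxC h2)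
        (by rw [Finset.insert_union]; exact h4)
      have h7 := ih P (insert x N) (Finset.disjoint_insert_right.2 ⟨hxP, h1⟩)
        (by
          rw [Finset.union_insert]
          exact Finset.insert_subset hxC h2)
        (by rw [Finset.union_insert]; exact h4)
      funext y
      have h8 := pn_insert F X.X P N x hxN g y
      rw [h6, h7, Pi.zero_apply] at h8
      rw [Pi.zero_apply]
      rw [sub_zero] at h8
      exact h8.symm
  have h := key _ ∅ ∅ (Finset.disjoint_empty_left _) (Finset.empty_subset _) rfl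
  rw [pn_empty] at h
  exact h

end gam

end Pool.LU.OctAux

namespace Pool.LU

theorem oct : OCTStmt := by
  intro F _ _ V _ _ adj hadj X o _ VL _ _ adjL hsymm hirr oL _ j hji hj ho d hdim z hz0 hz hc
  have h1 := OctAux.dim_ev F X adjL j hadj hj Finset.univ
  have hz' : ∀ σ, z σ ≠ 0 → Clq adjL σ := fun σ h => (hz σ h).2
  -- the image of the families
  have h2 := OctAux.rank_null (OctAux.Fam F X adjL j Finset.univ) (OctAux.ev F X)
  have h3 := OctAux.rank_null (OctAux.Fam F X adjL j Finset.univ) (OctAux.Gam F X j z)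
  have h4 : Module.finrank F ↥(OctAux.Fam F X adjL j Finset.univ ⊓
      LinearMap.ker (OctAux.Gam F X j z)) ≤
      Module.finrank F ↥(OctAux.Fam F X adjL j Finset.univ ⊓
      LinearMap.ker (OctAux.ev F X)) := by
    refine Submodule.finrank_mono (inf_le_inf_left _ fun g hg => ?_)
    exact OctAux.ker_Gam F X adjL j hji hj hirr hsymm z hz0 hz' g hg
  have h5 : Module.finrank F ↥((OctAux.Fam F X adjL j Finset.univ).map (OctAux.Gam F X j z)) ≤
      Module.finrank F ↥(Ch F adj X.ρ (Set.range j) (d + 1) ⊓ LinearMap.ker (bd F o X.X)) := by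
    refine Submodule.finrank_mono ?_
    rintro _ ⟨g, hg, rfl⟩
    exact ⟨OctAux.Gam_mem F X adjL j hji hj hirr z d hz g hg,
      OctAux.bd_Gam F X adjL j hji hj hirr z hz' o oL ho hc g⟩
  have h6 : Ch F adj X.ρ (Set.range j) (d + 1 + 1) = ⊥ := by
    rw [eq_bot_iff]
    intro x hx
    rw [Submodule.mem_bot]
    by_contra hne
    obtain ⟨σ, hσ⟩ := Function.ne_iff.1 hne
    obtain ⟨h7, h8, h9⟩ := hx.1 σ hσ
    have h10 := hdim _ (OctAux.pr_clq adjL j hji hj hirr h9)
    rw [OctAux.card_pr adjL j hji hj hirr h8 h9] at h10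
    omega
  have h7 : hh F o X (Set.range j) (d + 1) = Module.finrank F
      ↥(Ch F adj X.ρ (Set.range j) (d + 1) ⊓ LinearMap.ker (bd F o X.X)) := by
    rw [hh, h6, Submodule.map_bot, finrank_bot, Nat.sub_zero]
  have h8 : 2 ^ Fintype.card VL * ∑ x : VL, fx F X (j (x, true)) (j (x, false)) ≤
      2 ^ (Fintype.card VL + 1) * ∑ x : VL, fx F X (j (x, true)) (j (x, false)) :=
    Nat.mul_le_mul_right _ (Nat.pow_le_pow_right (by norm_num) (by omega))
  rw [h7]
  omega

end Pool.LU
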