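import Pool.Agent.H84.LU.YData

/-!
Project LU, part Y, certificates (Y3): the certificate `YCert`.
-/

set_option autoImplicit false
set_option maxRecDepth 100000

open Pool.H3.L2 Pool.LU.Chk

namespace Pool.LU.YC

theorem okc_sound {N : ℕ} (nb : List ℕ) (hsymm : ∀ u v : Fin N, adjM nb u v → adjM nb v u)
    (hirr : ∀ u : Fin N, ¬ adjM nb u u) (c : Ct) (A : ℕ) (h : okc nb N c A = true) (k : ℕ) :
    Ac (adjM nb) Fin.val 2 (mset N A) k ∧
      (k ≠ 2 → Ac (adjM nb) Fin.val 1 (mset N A) k) := by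
  cases c with
  | g t =>
    have h1 := chk_sound nb hsymm hirr t A h k
    refine ⟨fun x hx hdx => ?_, fun _ => h1⟩
    obtain ⟨y, hy, hdy⟩ := h1 x hx hdx
    refine ⟨(2 : ℤ) • y, hy.smul (adjM nb) 2, ?_⟩
    rw [dl_smul, hdy, one_smul]
  | b l B T =>
    rw [okc, Bool.and_eq_true] at h
    have h1 := core_sound nb B T h.2 k
    exact ⟨red_sound nb hsymm hirr 2 k B h1.1 l A h.1,
      fun hk => red_sound nb hsymm hirr 1 k B (h1.2 hk) l A h.1⟩

theorem mok_sound {N : ℕ} (cl : List ℕ) (sl : List Bool) (f A : ℕ) (h : mok cl sl f A N = true)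
    (v : Fin N) : A.testBit v.1 = xor (sl.getD v.1 false) (f.testBit (cl.getD v.1 0)) := by
  have key : ∀ k, mok cl sl f A k = true → ∀ i, i < k →
      A.testBit i = xor (sl.getD i false) (f.testBit (cl.getD i 0)) := by
    intro k
    induction k with
    | zero =>
      intro _ i hi
      exact absurd hi (Nat.not_lt_zero _)
    | succ k ih =>
      intro h1 i hi
      rw [mok, Bool.and_eq_true, beq_iff_eq] at h1
      rcases Nat.lt_succ_iff_lt_or_eq.1 hi with h2 | h2
      · exact ih h1.2 i h2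
      · rw [h2]
        exact h1.1
  exact key N h v.1 v.2

theorem allc_sound {N : ℕ} (nb : List ℕ) (cl : List ℕ) (sl : List Bool) (l : List (ℕ × Ct)) :
    ∀ f0, allc nb N cl sl f0 l = true → ∀ i, i < l.length →
    ∃ A c, mok cl sl (f0 + i) A N = true ∧ okc nb N c A = true := by
  induction l with
  | nil =>
    intro f0 _ i hi
    exact absurd hi (Nat.not_lt_zero _)
  | cons p l ih =>
    intro f0 h i hi
    rw [allc, Bool.and_eq_true, Bool.and_eq_true] at h
    cases i with
    | zero => exact ⟨p.1, p.2, h.1.1, h.1.2⟩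
    | succ i =>
      obtain ⟨A, c, h1, h2⟩ := ih (f0 + 1) h.2 i (by simpa using hi)
      refine ⟨A, c, ?_, h2⟩
      rw [show f0 + (i + 1) = f0 + 1 + i by ring]
      exact h1

/-- the colours -/
def kapY (v : Fin 36) : Fin 5 := ⟨colY.getD v 0 % 5, Nat.mod_lt _ (by norm_num)⟩

/-- the signs -/
def sigY (v : Fin 36) : ℤˣ := if sgY.getD v false = true then -1 else 1

theorem kapY_val (v : Fin 36) : (kapY v).1 = colY.getD v 0 := by
  revert v
  decide +kernel

/-- the code of a family of signs -/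
theorem exists_code (b : Fin 5 → ℤˣ) : ∃ f < 32, ∀ c : Fin 5, f.testBit c.1 = decide (b c = -1) := by
  obtain ⟨m, hm, h⟩ := exists_mask (Finset.univ.filter (fun c : Fin 5 => b c = -1))
  refine ⟨m, by simpa using hm, fun c => ?_⟩
  have h1 : c ∈ mset 5 m ↔ b c = -1 := by
    rw [h]
    simp
  rw [mem_mset] at h1
  by_cases h2 : b c = -1
  · rw [decide_eq_true h2]
    exact h1.2 h2
  · rw [decide_eq_false h2]
    by_contra h3
    exact h2 (h1.1 (by simpa using h3))

theorem mem_stA_iff (b : Fin 5 → ℤˣ) (f : ℕ)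
    (hf : ∀ c : Fin 5, f.testBit c.1 = decide (b c = -1)) (v : Fin 36) :
    v ∈ stA kapY sigY b ↔ xor (sgY.getD v.1 false) (f.testBit (colY.getD v.1 0)) = true := by
  rw [stA, Finset.mem_filter]
  have h1 := hf (kapY v)
  rw [kapY_val] at h1
  rw [h1, sigY]
  simp only [Finset.mem_univ, true_and]
  rcases Int.units_eq_one_or (b (kapY v)) with h2 | h2
  · rw [h2]
    cases sgY.getD v.1 false <;> decide
  · rw [h2]
    cases sgY.getD v.1 false <;> decide

theorem symm_Y : ∀ u v : Fin 36, adjM Y36.nbr u v → adjM Y36.nbr v u := by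
  have h : ∀ u v : Fin 36, (Y36.nbr.getD u 0).testBit v = (Y36.nbr.getD v 0).testBit u := by
    decide +kernel
  intro u v huv
  unfold adjM at huv ⊢
  rw [← h u v]
  exact huv

theorem irr_Y : ∀ u : Fin 36, ¬ adjM Y36.nbr u u := by
  have h : ∀ u : Fin 36, (Y36.nbr.getD u 0).testBit u = false := by
    decide +kernel
  intro u hu
  unfold adjM at hu
  rw [h u] at hu
  exact Bool.false_ne_true hu

theorem proper_Y : ∀ u v : Fin 36, adjM Y36.nbr u v → kapY u ≠ kapY v := by
  have h : ∀ u v : Fin 36, ((Y36.nbr.getD u 0).testBit v &&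
      (colY.getD u 0 == colY.getD v 0)) = false := by
    decide +kernel
  intro u v huv h1
  have h2 := h u v
  unfold adjM at huv
  have h3 : colY.getD u 0 = colY.getD v 0 := by
    rw [← kapY_val, ← kapY_val, h1]
  rw [huv, h3] at h2
  simp at h2

theorem ac_Y (b : Fin 5 → ℤˣ) (k : ℕ) :
    Ac (adjM Y36.nbr) Fin.val 2 (stA kapY sigY b) k ∧
      (k ≠ 2 → Ac (adjM Y36.nbr) Fin.val 1 (stA kapY sigY b) k) := by
  obtain ⟨f, hf, h⟩ := exists_code b
  obtain ⟨A, c, h1, h2⟩ := allc_sound Y36.nbr colY sgY tabY 0 cY1 f (by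
    have h3 : tabY.length = 32 := rfl
    rw [h3]
    exact hf)
  rw [Nat.zero_add] at h1
  have h3 : stA kapY sigY b = mset 36 A := by
    ext v
    rw [mem_stA_iff b f h v, mem_mset, mok_sound colY sgY f A h1 v]
  rw [h3]
  exact okc_sound Y36.nbr symm_Y irr_Y c A h2 k

/-- the signs of the state with a cycle which is not a boundary: code `21` -/
def badb (c : Fin 5) : ℤˣ := if (21 : ℕ).testBit c = true then -1 else 1

theorem badb_code : ∀ c : Fin 5, (21 : ℕ).testBit c.1 = decide (badb c = -1) := by decide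

theorem stA_bad : stA kapY sigY badb = mset 36 34571974727 := by
  have h1 : mok colY sgY 21 34571974727 36 = true := by decide +kernel
  ext v
  rw [mem_stA_iff badb 21 badb_code v, mem_mset, mok_sound colY sgY 21 34571974727 h1 v]

/-- The certificate. -/
theorem ycert : Nonempty YCert := by
  obtain ⟨P, hP, hadj⟩ := Y36.y36_poly
  have hadj' : P.adj = adjM Y36.nbr := by
    funext u v
    exact propext (hadj u v)
  have hfin : ∀ b, Finite ((St P.adj Fin.val Fin.val_injective (stA kapY sigY b)).Hk 2) := by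
    intro b
    rw [hadj']
    exact finite_Hk _ _ _ _ 2 2 (by norm_num) (ac_Y b 2).1
  refine ⟨{
    V := Fin 36
    P := P
    good := hP
    κ := kapY
    s := sigY
    proper := ?_
    mix := ?_
    surj := ?_
    o := Fin.val
    ho := Fin.val_injective
    triv := ?_
    fin := hfin
    bad := ⟨badb, ?_⟩ }⟩
  · rw [hadj']
    exact proper_Y
  · decide +kernel
  · decide +kernel
  · intro b k hk
    rw [hadj']
    exact subsingleton_Hk _ _ _ _ k ((ac_Y b k).2 hk)
  · have h1 := hfin badb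
    obtain ⟨x, hx, hdx, hx2⟩ := badc_sound Y36.nbr 34571974727 ctY zY cY2
    rw [hadj'] at h1 ⊢
    refine one_lt_card_Hk _ _ _ _ 2 h1 x ?_ hdx fun y hy => ?_
    · rw [stA_bad]
      exact hx
    · rw [stA_bad] at hy
      exact hx2 y hy

end Pool.LU.YC
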