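import Pool.Agent.H99.LU.CStmts

/-!
Project LU, part C: the dimension of the space of the functions which are antisymmetric under a
clique (module EIG).
-/

set_option autoImplicit false
set_option linter.unusedVariables false

open scoped BigOperators

noncomputable section

namespace Pool.LU.EigAux

variable (F : Type) [Field F] {V : Type} [DecidableEq V] {adj : V → V → Prop} (X : XSet V adj)

/-- antisymmetric functions -/
def As (σ : Finset V) : Submodule F (X.X → F) where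
  carrier := {f | ∀ v ∈ σ, ∀ y, f (X.ρ v y) = - f y}
  add_mem' := by
    intro f g hf hg v hv y
    simp only [Pi.add_apply, hf v hv y, hg v hv y]
    ring
  zero_mem' := by
    intro v hv y
    simp
  smul_mem' := by
    intro c f hf v hv y
    simp only [Pi.smul_apply, hf v hv y, smul_eq_mul]
    ring

theorem mem_As {σ : Finset V} {f : X.X → F} :
    f ∈ As F X σ ↔ ∀ v ∈ σ, ∀ y, f (X.ρ v y) = - f y := Iff.rfl

theorem As_mono {σ τ : Finset V} (h : τ ⊆ σ) : As F X σ ≤ As F X τ := by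
  intro f hf v hv y
  exact hf v (h hv) y

/-- the splitting -/
def spl (h2 : (2 : F) ≠ 0) (σ : Finset V) (v : V) (hv : v ∉ σ)
    (hc : ∀ u ∈ σ, adj u v) :
    ↥(As F X σ) ≃ₗ[F] (↥(As F X (insert v σ)) × ↥(As F X (insert v σ))) where
  toFun f := (⟨fun y => f.1 y - f.1 (X.ρ v y), by
      intro u hu y
      rcases Finset.mem_insert.1 hu with h | h
      · rw [h]
        simp only [X.ρρ]
        ring
      · show f.1 (X.ρ u y) - f.1 (X.ρ v (X.ρ u y)) = - (f.1 y - f.1 (X.ρ v y))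
        rw [← X.comm u v (hc u h), f.2 u h, f.2 u h]
        ring⟩,
    ⟨fun y => ((X.χ v y : ℤ) : F) * (f.1 y + f.1 (X.ρ v y)), by
      intro u hu y
      rcases Finset.mem_insert.1 hu with h | h
      · rw [h]
        simp only [X.ρρ, X.χ_self, Units.val_neg, Int.cast_neg]
        ring
      · have huv : v ≠ u := fun h' => hv (h' ▸ h)
        show ((X.χ v (X.ρ u y) : ℤ) : F) * (f.1 (X.ρ u y) + f.1 (X.ρ v (X.ρ u y))) =
          - (((X.χ v y : ℤ) : F) * (f.1 y + f.1 (X.ρ v y)))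
        rw [← X.comm u v (hc u h), f.2 u h, f.2 u h, X.χ_ne v u huv]
        ring⟩)
  invFun p := ⟨fun y => 2⁻¹ * (p.1.1 y + ((X.χ v y : ℤ) : F) * p.2.1 y), by
      intro u hu y
      have huv : v ≠ u := fun h' => hv (h' ▸ hu)
      show 2⁻¹ * (p.1.1 (X.ρ u y) + ((X.χ v (X.ρ u y) : ℤ) : F) * p.2.1 (X.ρ u y)) =
        - (2⁻¹ * (p.1.1 y + ((X.χ v y : ℤ) : F) * p.2.1 y))
      rw [p.1.2 u (Finset.mem_insert_of_mem hu), p.2.2 u (Finset.mem_insert_of_mem hu),
        X.χ_ne v u huv]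
      ring⟩
  left_inv f := by
    refine Subtype.ext (funext fun y => ?_)
    show 2⁻¹ * ((f.1 y - f.1 (X.ρ v y)) + ((X.χ v y : ℤ) : F) *
      (((X.χ v y : ℤ) : F) * (f.1 y + f.1 (X.ρ v y)))) = f.1 y
    have h1 : ((X.χ v y : ℤ) : F) * ((X.χ v y : ℤ) : F) = 1 := by
      rw [← Int.cast_mul, ← Units.val_mul, Int.units_mul_self, Units.val_one, Int.cast_one]
    rw [← mul_assoc ((X.χ v y : ℤ) : F), h1]
    field_simp
    ring
  right_inv p := by
    have h1 : ∀ y, ((X.χ v y : ℤ) : F) * ((X.χ v y : ℤ) : F) = 1 := by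
      intro y
      rw [← Int.cast_mul, ← Units.val_mul, Int.units_mul_self, Units.val_one, Int.cast_one]
    refine Prod.ext (Subtype.ext (funext fun y => ?_)) (Subtype.ext (funext fun y => ?_))
    · show 2⁻¹ * (p.1.1 y + ((X.χ v y : ℤ) : F) * p.2.1 y) -
        2⁻¹ * (p.1.1 (X.ρ v y) + ((X.χ v (X.ρ v y) : ℤ) : F) * p.2.1 (X.ρ v y)) = p.1.1 y
      rw [p.1.2 v (Finset.mem_insert_self v σ), p.2.2 v (Finset.mem_insert_self v σ), X.χ_self,
        Units.val_neg, Int.cast_neg]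
      field_simp
      ring
    · show ((X.χ v y : ℤ) : F) * (2⁻¹ * (p.1.1 y + ((X.χ v y : ℤ) : F) * p.2.1 y) +
        2⁻¹ * (p.1.1 (X.ρ v y) + ((X.χ v (X.ρ v y) : ℤ) : F) * p.2.1 (X.ρ v y))) = p.2.1 y
      rw [p.1.2 v (Finset.mem_insert_self v σ), p.2.2 v (Finset.mem_insert_self v σ), X.χ_self,
        Units.val_neg, Int.cast_neg]
      have h3 : ((X.χ v y : ℤ) : F) * (2⁻¹ * (p.1.1 y + ((X.χ v y : ℤ) : F) * p.2.1 y) +
          2⁻¹ * (-p.1.1 y + -((X.χ v y : ℤ) : F) * -p.2.1 y)) =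
          (((X.χ v y : ℤ) : F) * ((X.χ v y : ℤ) : F)) * (2⁻¹ * 2 * p.2.1 y) := by ring
      rw [h3, h1, inv_mul_cancel₀ h2, one_mul, one_mul]
  map_add' f g := by
    refine Prod.ext (Subtype.ext (funext fun y => ?_)) (Subtype.ext (funext fun y => ?_))
    · show (f.1 y + g.1 y) - (f.1 (X.ρ v y) + g.1 (X.ρ v y)) =
        (f.1 y - f.1 (X.ρ v y)) + (g.1 y - g.1 (X.ρ v y))
      ring
    · show ((X.χ v y : ℤ) : F) * ((f.1 y + g.1 y) + (f.1 (X.ρ v y) + g.1 (X.ρ v y))) =
        ((X.χ v y : ℤ) : F) * (f.1 y + f.1 (X.ρ v y)) +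
        ((X.χ v y : ℤ) : F) * (g.1 y + g.1 (X.ρ v y))
      ring
  map_smul' c f := by
    refine Prod.ext (Subtype.ext (funext fun y => ?_)) (Subtype.ext (funext fun y => ?_))
    · show c * f.1 y - c * f.1 (X.ρ v y) = c * (f.1 y - f.1 (X.ρ v y))
      ring
    · show ((X.χ v y : ℤ) : F) * (c * f.1 y + c * f.1 (X.ρ v y)) =
        c * (((X.χ v y : ℤ) : F) * (f.1 y + f.1 (X.ρ v y)))
      ring

theorem card_As (h2 : (2 : F) ≠ 0) (hadj : ∀ u v, adj u v → adj v u) (σ : Finset V)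
    (hσ : Clq adj σ) : 2 ^ σ.card * Module.finrank F ↥(As F X σ) = Fintype.card X.X := by
  induction σ using Finset.induction_on with
  | empty =>
    have h1 : As F X ∅ = ⊤ := by
      rw [eq_top_iff]
      intro f _ v hv
      exact absurd hv (Finset.notMem_empty v)
    rw [h1, Finset.card_empty, pow_zero, one_mul, finrank_top,
      Module.finrank_fintype_fun_eq_card]
  | insert v σ hv ih =>
    have h1 := ih fun a ha b hb hab =>
      hσ a (Finset.mem_insert_of_mem ha) b (Finset.mem_insert_of_mem hb) hab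
    have h3 : ∀ u ∈ σ, adj u v := fun u hu => hσ u (Finset.mem_insert_of_mem hu) v
      (Finset.mem_insert_self v σ) fun h' => hv (h' ▸ hu)
    have h4 := (spl F X h2 σ v hv h3).finrank_eq
    rw [Module.finrank_prod] at h4
    rw [Finset.card_insert_of_notMem hv, pow_succ, ← h1, h4]
    ring

end Pool.LU.EigAux

namespace Pool.LU

theorem eig : EIGStmt := by
  intro F _ h2 V _ _ adj hadj X σ hσ
  exact ⟨EigAux.As F X σ, fun f => Iff.rfl, EigAux.card_As F X h2 hadj σ hσ⟩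

end Pool.LU
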