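import Pool.Agent.H84.LU.YCore
import Pool.Agent.H41.LU.PolyChk

/-!
Project LU, part Y, certificates (Y3): the checkers (bit masks) and their soundness.
-/

set_option autoImplicit false
set_option linter.unusedVariables false
set_option linter.unusedSectionVars false

open scoped BigOperators
open Pool.H3.L2 Pool.LU.Chk

namespace Pool.LU.YC

/-! ### masks -/

section masks

variable {N : ℕ}

theorem mset_inj {a b : ℕ} (ha : a < 2 ^ N) (hb : b < 2 ^ N) (h : mset N a = mset N b) :
    a = b := by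
  refine Nat.eq_of_testBit_eq fun i => ?_
  by_cases hi : i < N
  · have h1 : (⟨i, hi⟩ : Fin N) ∈ mset N a ↔ (⟨i, hi⟩ : Fin N) ∈ mset N b := by rw [h]
    rw [mem_mset, mem_mset] at h1
    exact Bool.eq_iff_iff.2 h1
  · have h1 : 2 ^ N ≤ 2 ^ i := Nat.pow_le_pow_right (by norm_num) (by omega)
    rw [Nat.testBit_lt_two_pow (lt_of_lt_of_le ha h1), Nat.testBit_lt_two_pow
      (lt_of_lt_of_le hb h1)]

theorem testBit_pow (v i : ℕ) : (2 ^ v).testBit i = decide (v = i) := Nat.testBit_two_pow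

theorem mset_or (m v : ℕ) (hv : v < N) : mset N (m ||| 2 ^ v) = insert ⟨v, hv⟩ (mset N m) := by
  ext u
  rw [mem_mset, Finset.mem_insert, mem_mset, Nat.testBit_or, testBit_pow, Bool.or_eq_true,
    decide_eq_true_iff]
  constructor
  · rintro (h | h)
    · exact Or.inr h
    · exact Or.inl (Fin.ext h.symm)
  · rintro (h | h)
    · exact Or.inr (by rw [h])
    · exact Or.inl h

theorem mset_xor (m v : ℕ) (hv : v < N) (h : m.testBit v = true) :
    mset N (m ^^^ 2 ^ v) = (mset N m).erase ⟨v, hv⟩ := by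
  ext u
  rw [mem_mset, Finset.mem_erase, mem_mset, Nat.testBit_xor, testBit_pow]
  by_cases h1 : v = u.1
  · have h2 : u = ⟨v, hv⟩ := Fin.ext h1.symm
    rw [decide_eq_true h1, ← h1, h]
    simp [h2]
  · have h2 : u ≠ ⟨v, hv⟩ := fun h3 => h1 (by rw [h3])
    rw [decide_eq_false h1, Bool.xor_false]
    simp [h2]

theorem xor_lt {m v : ℕ} (hm : m < 2 ^ N) (hv : v < N) : m ^^^ 2 ^ v < 2 ^ N :=
  Nat.xor_lt_two_pow hm (Nat.pow_lt_pow_right (by norm_num) hv)

theorem or_lt {m v : ℕ} (hm : m < 2 ^ N) (hv : v < N) : m ||| 2 ^ v < 2 ^ N :=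
  Nat.or_lt_two_pow hm (Nat.pow_lt_pow_right (by norm_num) hv)

theorem exists_mask (σ : Finset (Fin N)) : ∃ m < 2 ^ N, mset N m = σ := by
  induction σ using Finset.induction_on with
  | empty =>
    refine ⟨0, Nat.two_pow_pos N, ?_⟩
    ext u
    rw [mem_mset]
    simp
  | insert v σ hv ih =>
    obtain ⟨m, hm, h⟩ := ih
    refine ⟨m ||| 2 ^ v.1, or_lt hm v.2, ?_⟩
    rw [mset_or m v.1 v.2, h]

/-- the mask of a set -/
noncomputable def cd (σ : Finset (Fin N)) : ℕ := (exists_mask σ).choose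

theorem cd_mset {m : ℕ} (hm : m < 2 ^ N) : cd (mset N m) = m :=
  mset_inj (exists_mask (mset N m)).choose_spec.1 hm (exists_mask (mset N m)).choose_spec.2

/-- the faces of a mask with signs (`true` is the sign `-1`), and the parity of the number of the
elements -/
def fcd (m : ℕ) : ℕ → Bool × List (ℕ × Bool)
  | 0 => (false, [])
  | k + 1 => if m.testBit k then (!(fcd m k).1, (m ^^^ 2 ^ k, (fcd m k).1) :: (fcd m k).2)
      else fcd m k

/-- sign -/
def sb (b : Bool) (c : ℤ) : ℤ := bif b then -c else c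

theorem sb_eq (b : Bool) (c : ℤ) : sb b c = sb b 1 * c := by
  cases b <;> simp [sb]

/-- `∑ ± Φ(face)` -/
noncomputable def fs {M : Type} [AddCommGroup M] (Φ : Finset (Fin N) → M) :
    List (ℕ × Bool) → M
  | [] => 0
  | p :: l => sb p.2 1 • Φ (mset N p.1) + fs Φ l

theorem fcd_spec {M : Type} [AddCommGroup M] (Φ : Finset (Fin N) → M) (m : ℕ) (k : ℕ)
    (hk : k ≤ N) :
    sb (fcd m k).1 1 = (-1) ^ ((mset N m).filter (fun u => u.1 < k)).card ∧
    fs Φ (fcd m k).2 = ∑ v ∈ (mset N m).filter (fun u => u.1 < k),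
      sg Fin.val v ((mset N m).erase v) • Φ ((mset N m).erase v) := by
  induction k with
  | zero =>
    have h1 : (mset N m).filter (fun u => u.1 < 0) = ∅ := by
      ext u
      simp
    rw [h1]
    exact ⟨rfl, rfl⟩
  | succ k ih =>
    obtain ⟨ih1, ih2⟩ := ih (by omega)
    have hkN : k < N := by omega
    by_cases h : m.testBit k = true
    · have hmem : (⟨k, hkN⟩ : Fin N) ∈ mset N m := mem_mset.2 h
      have h1 : (mset N m).filter (fun u => u.1 < k + 1) =
          insert ⟨k, hkN⟩ ((mset N m).filter (fun u => u.1 < k)) := by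
        ext u
        rw [Finset.mem_insert, Finset.mem_filter, Finset.mem_filter]
        constructor
        · rintro ⟨h2, h3⟩
          by_cases h4 : u.1 = k
          · exact Or.inl (Fin.ext h4)
          · exact Or.inr ⟨h2, by omega⟩
        · rintro (h2 | h2)
          · rw [h2]
            exact ⟨hmem, Nat.lt_succ_self k⟩
          · exact ⟨h2.1, by omega⟩
      have h2 : (⟨k, hkN⟩ : Fin N) ∉ (mset N m).filter (fun u => u.1 < k) := by
        rw [Finset.mem_filter]
        rintro ⟨_, h3⟩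
        exact lt_irrefl _ h3
      have e1 : fcd m (k + 1) = (!(fcd m k).1, (m ^^^ 2 ^ k, (fcd m k).1) :: (fcd m k).2) := by
        rw [fcd, if_pos h]
      rw [e1, h1, Finset.card_insert_of_notMem h2, Finset.sum_insert h2]
      have h3 : sg Fin.val (⟨k, hkN⟩ : Fin N) ((mset N m).erase ⟨k, hkN⟩) =
          sb (fcd m k).1 1 := by
        rw [ih1, sg]
        congr 2
        ext u
        rw [Finset.mem_filter, Finset.mem_filter, Finset.mem_erase]
        constructor
        · rintro ⟨⟨_, h4⟩, h5⟩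
          exact ⟨h4, h5⟩
        · rintro ⟨h4, h5⟩
          refine ⟨⟨fun h6 => ?_, h4⟩, h5⟩
          rw [h6] at h5
          exact lt_irrefl _ h5
      constructor
      · show sb (!(fcd m k).1) 1 = _
        rw [pow_succ, ← ih1]
        cases (fcd m k).1 <;> simp [sb]
      · show sb (fcd m k).1 1 • Φ (mset N (m ^^^ 2 ^ k)) + fs Φ (fcd m k).2 = _
        rw [ih2, h3, mset_xor m k hkN h]
    · have h1 : (mset N m).filter (fun u => u.1 < k + 1) =
          (mset N m).filter (fun u => u.1 < k) := by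
        ext u
        rw [Finset.mem_filter, Finset.mem_filter]
        constructor
        · rintro ⟨h2, h3⟩
          refine ⟨h2, ?_⟩
          by_contra h4
          have h5 : u.1 = k := by omega
          rw [mem_mset, h5] at h2
          exact h h2
        · rintro ⟨h2, h3⟩
          exact ⟨h2, by omega⟩
      have e1 : fcd m (k + 1) = fcd m k := by
        rw [fcd, if_neg h]
      rw [e1, h1]
      exact ⟨ih1, ih2⟩

theorem fs_fcd {M : Type} [AddCommGroup M] (Φ : Finset (Fin N) → M) (m : ℕ) :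
    fs Φ (fcd m N).2 = ∑ v ∈ mset N m,
      sg Fin.val v ((mset N m).erase v) • Φ ((mset N m).erase v) := by
  rw [(fcd_spec Φ m N le_rfl).2]
  congr 1
  ext u
  simp

/-- the masks of the faces are bounded -/
theorem fcd_lt {m : ℕ} (hm : m < 2 ^ N) (k : ℕ) (hk : k ≤ N) :
    ∀ p ∈ (fcd m k).2, p.1 < 2 ^ N := by
  induction k with
  | zero =>
    intro p hp
    exact absurd hp (by simp [fcd])
  | succ k ih =>
    intro p hp
    by_cases h : m.testBit k = true
    · rw [fcd, if_pos h] at hp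
      rcases List.mem_cons.1 hp with h1 | h1
      · rw [h1]
        exact xor_lt hm (by omega)
      · exact ih (by omega) p h1
    · rw [fcd, if_neg h] at hp
      exact ih (by omega) p hp

end masks

/-! ### formal sums -/

section sums

variable {N : ℕ}

/-- the chain of a list -/
noncomputable def ev : List (ℕ × ℤ) → (Finset (Fin N) → ℤ)
  | [] => 0
  | p :: l => p.2 • Pi.single (mset N p.1) 1 + ev l

/-- add `c` times the mask `m` -/
def ins (m : ℕ) (c : ℤ) : List (ℕ × ℤ) → List (ℕ × ℤ)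
  | [] => [(m, c)]
  | p :: l => bif p.1 == m then (m, c + p.2) :: l else p :: ins m c l

theorem ev_ins (m : ℕ) (c : ℤ) (l : List (ℕ × ℤ)) :
    (ev (ins m c l) : Finset (Fin N) → ℤ) = c • Pi.single (mset N m) 1 + ev l := by
  induction l with
  | nil => rfl
  | cons p l ih =>
    rw [ins]
    by_cases h : p.1 = m
    · have h1 : (p.1 == m) = true := by rw [h]; exact beq_self_eq_true m
      rw [h1, cond_true]
      show (c + p.2) • Pi.single (mset N m) 1 + ev l = _ + (p.2 • Pi.single (mset N p.1) 1 + ev l)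
      rw [h, add_smul, add_assoc]
    · have h1 : (p.1 == m) = false := beq_false_of_ne h
      rw [h1, cond_false]
      show p.2 • Pi.single (mset N p.1) 1 + ev (ins m c l) =
        _ + (p.2 • Pi.single (mset N p.1) 1 + ev l)
      rw [ih]
      abel

/-- all coefficients are zero -/
def zc : List (ℕ × ℤ) → Bool
  | [] => true
  | p :: l => (p.2 == 0) && zc l

theorem ev_zc (l : List (ℕ × ℤ)) (h : zc l = true) : (ev l : Finset (Fin N) → ℤ) = 0 := by
  induction l with
  | nil => rfl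
  | cons p l ih =>
    rw [zc, Bool.and_eq_true, beq_iff_eq] at h
    show p.2 • Pi.single (mset N p.1) 1 + ev l = 0
    rw [h.1, ih h.2, zero_smul, add_zero]

/-- add `s` times the list -/
def addl (s : Bool) : List (ℕ × ℤ) → List (ℕ × ℤ) → List (ℕ × ℤ)
  | [], acc => acc
  | p :: l, acc => ins p.1 (sb s p.2) (addl s l acc)

theorem ev_addl (s : Bool) (l acc : List (ℕ × ℤ)) :
    (ev (addl s l acc) : Finset (Fin N) → ℤ) = sb s 1 • ev l + ev acc := by
  induction l with
  | nil =>
    show ev acc = sb s 1 • 0 + ev acc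
    rw [smul_zero, zero_add]
  | cons p l ih =>
    show ev (ins p.1 (sb s p.2) (addl s l acc)) = _ • (p.2 • Pi.single (mset N p.1) 1 + ev l) + _
    rw [ev_ins, ih, sb_eq, smul_add, mul_smul, add_assoc]

/-- add `c` times the faces -/
def addf (c : ℤ) : List (ℕ × Bool) → List (ℕ × ℤ) → List (ℕ × ℤ)
  | [], acc => acc
  | p :: l, acc => ins p.1 (sb p.2 c) (addf c l acc)

theorem ev_addf (c : ℤ) (l : List (ℕ × Bool)) (acc : List (ℕ × ℤ)) :
    (ev (addf c l acc) : Finset (Fin N) → ℤ) =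
      c • fs (fun σ => (Pi.single σ 1 : Finset (Fin N) → ℤ)) l + ev acc := by
  induction l with
  | nil =>
    show ev acc = c • 0 + ev acc
    rw [smul_zero, zero_add]
  | cons p l ih =>
    show ev (ins p.1 (sb p.2 c) (addf c l acc)) = c • (sb p.2 1 • Pi.single (mset N p.1) 1 + _) + _
    rw [ev_ins, ih, sb_eq, smul_add, mul_comm, mul_smul, add_assoc]

theorem dl_single (σ : Finset (Fin N)) :
    dl Fin.val (Pi.single σ (1 : ℤ) : Finset (Fin N) → ℤ) =
      ∑ v ∈ σ, sg Fin.val v (σ.erase v) • (Pi.single (σ.erase v) (1 : ℤ)) := by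
  funext τ
  unfold dl
  rw [Finset.sum_apply]
  simp only [Pi.smul_apply, Pi.single_apply, smul_eq_mul]
  have h1 : ∀ v : Fin N, (v ∈ Finset.univ \ τ ∧ insert v τ = σ) ↔ (v ∈ σ ∧ τ = σ.erase v) := by
    intro v
    rw [Finset.mem_sdiff]
    constructor
    · rintro ⟨⟨_, h⟩, rfl⟩
      exact ⟨Finset.mem_insert_self v τ, (Finset.erase_insert h).symm⟩
    · rintro ⟨h, rfl⟩
      exact ⟨⟨Finset.mem_univ v, Finset.notMem_erase v σ⟩, Finset.insert_erase h⟩
  have h2 : ∑ v ∈ Finset.univ \ τ, sg Fin.val v τ * (if insert v τ = σ then (1 : ℤ) else 0) =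
      ∑ v : Fin N, if v ∈ Finset.univ \ τ ∧ insert v τ = σ then sg Fin.val v τ else 0 := by
    rw [← Finset.sum_subset (Finset.subset_univ (Finset.univ \ τ))]
    · refine Finset.sum_congr rfl fun v hv => ?_
      by_cases h : insert v τ = σ
      · rw [if_pos h, if_pos ⟨hv, h⟩, mul_one]
      · rw [if_neg h, if_neg (fun h' => h h'.2), mul_zero]
    · intro v _ hv
      exact if_neg fun h' => hv h'.1
  have h3 : ∑ v ∈ σ, sg Fin.val v (σ.erase v) * (if τ = σ.erase v then (1 : ℤ) else 0) =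
      ∑ v : Fin N, if v ∈ σ ∧ τ = σ.erase v then sg Fin.val v τ else 0 := by
    rw [← Finset.sum_subset (Finset.subset_univ σ)]
    · refine Finset.sum_congr rfl fun v hv => ?_
      by_cases h : τ = σ.erase v
      · rw [if_pos h, if_pos ⟨hv, h⟩, mul_one, ← h]
      · rw [if_neg h, if_neg (fun h' => h h'.2), mul_zero]
    · intro v _ hv
      exact if_neg fun h' => hv h'.1
  rw [h2, h3]
  refine Finset.sum_congr rfl fun v _ => ?_
  by_cases h : v ∈ σ ∧ τ = σ.erase v
  · rw [if_pos h, if_pos ((h1 v).2 h)]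
  · rw [if_neg h, if_neg fun h' => h ((h1 v).1 h')]

theorem fs_single (m : ℕ) : fs (fun σ => (Pi.single σ 1 : Finset (Fin N) → ℤ)) (fcd m N).2 =
    dl Fin.val (Pi.single (mset N m) (1 : ℤ) : Finset (Fin N) → ℤ) := by
  rw [fs_fcd, dl_single]

/-- add the boundary of the list -/
def dll (N : ℕ) : List (ℕ × ℤ) → List (ℕ × ℤ) → List (ℕ × ℤ)
  | [], acc => acc
  | p :: l, acc => addf p.2 (fcd p.1 N).2 (dll N l acc)

theorem ev_dll (l acc : List (ℕ × ℤ)) :
    (ev (dll N l acc) : Finset (Fin N) → ℤ) = dl Fin.val (ev l) + ev acc := by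
  induction l with
  | nil =>
    show ev acc = dl Fin.val 0 + ev acc
    rw [dl_zero, zero_add]
  | cons p l ih =>
    show ev (addf p.2 (fcd p.1 N).2 (dll N l acc)) =
      dl Fin.val (p.2 • Pi.single (mset N p.1) 1 + ev l) + ev acc
    rw [ev_addf, ih, fs_single, dl_add, dl_smul, add_assoc]

/-- look up -/
def lk : List (ℕ × List (ℕ × ℤ)) → ℕ → List (ℕ × ℤ)
  | [], _ => []
  | p :: t, q => bif p.1 == q then p.2 else lk t q

/-- add the values at the faces -/
def addg (T : List (ℕ × List (ℕ × ℤ))) : List (ℕ × Bool) → List (ℕ × ℤ) → List (ℕ × ℤ)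
  | [], acc => acc
  | p :: l, acc => addl p.2 (lk T p.1) (addg T l acc)

theorem ev_addg (T : List (ℕ × List (ℕ × ℤ))) (l : List (ℕ × Bool)) (acc : List (ℕ × ℤ))
    (hl : ∀ p ∈ l, p.1 < 2 ^ N) :
    (ev (addg T l acc) : Finset (Fin N) → ℤ) =
      fs (fun σ : Finset (Fin N) => (ev (lk T (cd σ)) : Finset (Fin N) → ℤ)) l + ev acc := by
  induction l with
  | nil =>
    show ev acc = 0 + ev acc
    rw [zero_add]
  | cons p l ih =>
    show ev (addl p.2 (lk T p.1) (addg T l acc)) =
      (sb p.2 1 • ev (lk T (cd (mset N p.1))) + _) + _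
    rw [ev_addl, ih fun q hq => hl q (List.mem_cons_of_mem _ hq),
      cd_mset (hl p List.mem_cons_self), add_assoc]

end sums

/-! ### cliques -/

section cliques

variable {N : ℕ}

/-- adjacency of masks -/
def adjM (nb : List ℕ) (u v : Fin N) : Prop := (nb.getD u 0).testBit v = true

/-- all cliques have the property -/
def en (nb : List ℕ) (P : ℕ → ℕ → Bool) : ℕ → ℕ → ℕ → ℕ → Bool
  | 0, _, cur, d => P cur d
  | k + 1, cand, cur, d => en nb P k cand cur d &&
      (bif cand.testBit k then en nb P k (cand &&& nb.getD k 0) (cur ||| 2 ^ k) (d + 1) else true)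

theorem en_sound (nb : List ℕ) (P : ℕ → ℕ → Bool) (k : ℕ) (hk : k ≤ N) :
    ∀ (cand cur d : ℕ), en nb P k cand cur d = true → cur < 2 ^ N →
    ∀ σ : Finset (Fin N), (∀ u ∈ σ, u.1 < k) → σ ⊆ mset N cand → Clq (adjM nb) σ →
    ∃ m < 2 ^ N, mset N m = mset N cur ∪ σ ∧ P m (d + σ.card) = true := by
  induction k with
  | zero =>
    intro cand cur d h hcur σ h1 h2 h3
    have h4 : σ = ∅ := by
      rw [Finset.eq_empty_iff_forall_notMem]
      intro u hu
      exact absurd (h1 u hu) (Nat.not_lt_zero _)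
    rw [h4, Finset.union_empty, Finset.card_empty, Nat.add_zero]
    exact ⟨cur, hcur, rfl, h⟩
  | succ k ih =>
    intro cand cur d h hcur σ h1 h2 h3
    rw [en, Bool.and_eq_true] at h
    have hkN : k < N := by omega
    by_cases hkσ : (⟨k, hkN⟩ : Fin N) ∈ σ
    · have h4 : cand.testBit k = true := by
        have := h2 hkσ
        rw [mem_mset] at this
        exact this
      have h5 := h.2
      rw [h4, cond_true] at h5
      obtain ⟨m, hm, h6, h7⟩ := ih (by omega) _ _ _ h5 (or_lt hcur hkN) (σ.erase ⟨k, hkN⟩)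
        (fun u hu => by
          have h8 := h1 u (Finset.mem_of_mem_erase hu)
          have h9 : u.1 ≠ k := fun h' => Finset.ne_of_mem_erase hu (Fin.ext h')
          omega)
        (fun u hu => by
          rw [mem_mset, Nat.testBit_and, Bool.and_eq_true]
          refine ⟨mem_mset.1 (h2 (Finset.mem_of_mem_erase hu)), ?_⟩
          exact h3 ⟨k, hkN⟩ hkσ u (Finset.mem_of_mem_erase hu)
            (Ne.symm (Finset.ne_of_mem_erase hu)))
        (fun a ha b hb hab => h3 a (Finset.mem_of_mem_erase ha) b (Finset.mem_of_mem_erase hb)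
          hab)
      refine ⟨m, hm, ?_, ?_⟩
      · rw [h6, mset_or cur k hkN, Finset.insert_union, ← Finset.union_insert,
          Finset.insert_erase hkσ]
      · have h8 := Finset.card_erase_add_one hkσ
        rw [← h8]
        have h9 : d + ((σ.erase ⟨k, hkN⟩).card + 1) = d + 1 + (σ.erase ⟨k, hkN⟩).card := by ring
        rw [h9]
        exact h7
    · refine ih (by omega) _ _ _ h.1 hcur σ (fun u hu => ?_) h2 h3
      have h4 := h1 u hu
      have h5 : u.1 ≠ k := by
        intro h'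
        apply hkσ
        have : u = ⟨k, hkN⟩ := Fin.ext h'
        rw [← this]
        exact hu
      omega

theorem en_all (nb : List ℕ) (P : ℕ → ℕ → Bool) (A : ℕ) (h : en nb P N A 0 0 = true)
    (σ : Finset (Fin N)) (h1 : σ ⊆ mset N A) (h2 : Clq (adjM nb) σ) :
    ∃ m < 2 ^ N, mset N m = σ ∧ P m σ.card = true := by
  obtain ⟨m, hm, h3, h4⟩ := en_sound nb P N le_rfl A 0 0 h (Nat.two_pow_pos N) σ
    (fun u _ => u.2) h1 h2
  refine ⟨m, hm, ?_, ?_⟩
  · rw [h3]
    have h5 : mset N 0 = ∅ := by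
      ext u
      rw [mem_mset]
      simp
    rw [h5, Finset.empty_union]
  · rw [Nat.zero_add] at h4
    exact h4

/-- `m` is a clique (neighbours of the bits below `k`) -/
def cq (nb : List ℕ) (m : ℕ) : ℕ → Bool
  | 0 => true
  | k + 1 => (bif m.testBit k then (m &&& (nb.getD k 0 ||| 2 ^ k)) == m else true) && cq nb m k

theorem cq_sound (nb : List ℕ) (m : ℕ) (h : cq nb m N = true) : Clq (adjM nb) (mset N m) := by
  have key : ∀ k, k ≤ N → cq nb m k = true → ∀ u : Fin N, u.1 < k → u ∈ mset N m →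
      ∀ v ∈ mset N m, u ≠ v → adjM nb u v := by
    intro k
    induction k with
    | zero =>
      intro _ _ u hu
      exact absurd hu (Nat.not_lt_zero _)
    | succ k ih =>
      intro hk h1 u hu hum v hv huv
      rw [cq, Bool.and_eq_true] at h1
      by_cases h2 : u.1 = k
      · have h3 : m.testBit k = true := by
          rw [← h2]
          exact mem_mset.1 hum
        have h4 := h1.1
        rw [h3, cond_true, beq_iff_eq] at h4
        have h5 := mem_mset.1 hv
        rw [← h4, Nat.testBit_and, Nat.testBit_or, testBit_pow, Bool.and_eq_true,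
          Bool.or_eq_true, decide_eq_true_iff] at h5
        rcases h5.2 with h6 | h6
        · unfold adjM
          rw [h2]
          exact h6
        · exact absurd (Fin.ext (h2.trans h6)) huv
      · exact ih (by omega) h1.2 u (by omega) hum v hv huv
  intro u hu v hv huv
  exact key N le_rfl h u u.2 hu v hv huv

/-- all entries of the list are cliques with `k` elements in `A` -/
def vl (nb : List ℕ) (N A k : ℕ) : List (ℕ × ℤ) → Bool
  | [] => true
  | p :: l => (decide (p.1 < 2 ^ N) && (p.1 &&& A == p.1) && (Chk.pc N p.1 == k) &&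
      cq nb p.1 N) && vl nb N A k l

theorem vl_sound (nb : List ℕ) (A k : ℕ) (l : List (ℕ × ℤ)) (h : vl nb N A k l = true) :
    IsC (adjM nb) (mset N A) k (ev l : Finset (Fin N) → ℤ) := by
  induction l with
  | nil =>
    intro σ hσ
    exact absurd rfl hσ
  | cons p l ih =>
    rw [vl, Bool.and_eq_true, Bool.and_eq_true, Bool.and_eq_true, Bool.and_eq_true,
      beq_iff_eq, beq_iff_eq] at h
    obtain ⟨⟨⟨⟨h1, h2⟩, h3⟩, h4⟩, h5⟩ := h
    refine IsC.add (adjM nb) (IsC.smul (adjM nb) p.2 fun σ hσ => ?_) (ih h5)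
    by_cases hs : σ = mset N p.1
    · rw [hs]
      refine ⟨?_, fun u hu => ?_, cq_sound nb p.1 h4⟩
      · rw [← h3, ← Chk.pc_eq]
        rfl
      · rw [mem_mset] at hu ⊢
        rw [← h2, Nat.testBit_and, Bool.and_eq_true] at hu
        exact hu.2
    · exact absurd (Pi.single_eq_of_ne hs _) hσ

end cliques

/-! ### trees -/

section trees

variable {N : ℕ}

/-- certificates: a cone, or the removal of a vertex -/
inductive Tr
  | c (v : ℕ)
  | n (v : ℕ) (a b : Tr)

/-- the checker -/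
def chk (nb : List ℕ) (N : ℕ) : Tr → ℕ → Bool
  | .c v, A => decide (v < N) && A.testBit v && ((A &&& (nb.getD v 0 ||| 2 ^ v)) == A)
  | .n v a b, A => decide (v < N) && A.testBit v && chk nb N a (A &&& nb.getD v 0) &&
      chk nb N b (A ^^^ 2 ^ v)

theorem ac_remove (nb : List ℕ) (hsymm : ∀ u v : Fin N, adjM nb u v → adjM nb v u)
    (hirr : ∀ u : Fin N, ¬ adjM nb u u) (n : ℤ) (A v : ℕ) (hv : v < N)
    (hA : A.testBit v = true)
    (h1 : ∀ k, Ac (adjM nb) Fin.val 1 (mset N (A &&& nb.getD v 0)) k) (k : ℕ)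
    (h2 : Ac (adjM nb) Fin.val n (mset N (A ^^^ 2 ^ v)) k) :
    Ac (adjM nb) Fin.val n (mset N A) k := by
  have e1 := mset_xor A v hv hA
  have hm : (⟨v, hv⟩ : Fin N) ∈ mset N A := mem_mset.2 hA
  have e2 : mset N A = insert ⟨v, hv⟩ (mset N (A ^^^ 2 ^ v)) := by
    rw [e1, Finset.insert_erase hm]
  rw [e2]
  refine ac_insert (adjM nb) Fin.val Fin.val_injective n _ (mset N (A &&& nb.getD v 0))
    ⟨v, hv⟩ ?_ ?_ h1 k h2
  · rw [e1]
    exact Finset.notMem_erase _ _
  · intro u
    rw [e1, Finset.mem_erase, mem_mset, mem_mset, Nat.testBit_and, Bool.and_eq_true]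
    constructor
    · rintro ⟨h3, h4⟩
      have h5 : adjM nb (⟨v, hv⟩ : Fin N) u := h4
      refine ⟨⟨fun h6 => ?_, h3⟩, hsymm _ _ h5, h5⟩
      rw [h6] at h5
      exact hirr _ h5
    · rintro ⟨⟨_, h3⟩, _, h4⟩
      exact ⟨h3, h4⟩

theorem chk_sound (nb : List ℕ) (hsymm : ∀ u v : Fin N, adjM nb u v → adjM nb v u)
    (hirr : ∀ u : Fin N, ¬ adjM nb u u) (t : Tr) :
    ∀ A, chk nb N t A = true → ∀ k, Ac (adjM nb) Fin.val 1 (mset N A) k := by
  induction t with
  | c v =>
    intro A h k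
    rw [chk, Bool.and_eq_true, Bool.and_eq_true, decide_eq_true_iff, beq_iff_eq] at h
    obtain ⟨⟨h1, h2⟩, h3⟩ := h
    refine ac_cone (adjM nb) Fin.val Fin.val_injective (mset N A) ⟨v, h1⟩ (mem_mset.2 h2)
      (fun u hu huv => ?_) k
    rw [mem_mset, ← h3, Nat.testBit_and, Nat.testBit_or, testBit_pow, Bool.and_eq_true,
      Bool.or_eq_true, decide_eq_true_iff] at hu
    rcases hu.2 with h4 | h4
    · have h5 : adjM nb (⟨v, h1⟩ : Fin N) u := h4
      exact ⟨hsymm _ _ h5, h5⟩
    · exact absurd (Fin.ext h4.symm) huv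
  | n v a b iha ihb =>
    intro A h k
    rw [chk, Bool.and_eq_true, Bool.and_eq_true, Bool.and_eq_true, decide_eq_true_iff] at h
    obtain ⟨⟨⟨h1, h2⟩, h3⟩, h4⟩ := h
    exact ac_remove nb hsymm hirr 1 A v h1 h2 (iha _ h3) k (ihb _ h4 k)

/-- removal of vertices down to a core -/
def red (nb : List ℕ) (N : ℕ) : List (ℕ × Tr) → ℕ → ℕ → Bool
  | [], A, B => A == B
  | p :: l, A, B => decide (p.1 < N) && A.testBit p.1 && chk nb N p.2 (A &&& nb.getD p.1 0) &&
      red nb N l (A ^^^ 2 ^ p.1) B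

theorem red_sound (nb : List ℕ) (hsymm : ∀ u v : Fin N, adjM nb u v → adjM nb v u)
    (hirr : ∀ u : Fin N, ¬ adjM nb u u) (n : ℤ) (k : ℕ) (B : ℕ)
    (hB : Ac (adjM nb) Fin.val n (mset N B) k) (l : List (ℕ × Tr)) :
    ∀ A, red nb N l A B = true → Ac (adjM nb) Fin.val n (mset N A) k := by
  induction l with
  | nil =>
    intro A h
    rw [red, beq_iff_eq] at h
    rw [h]
    exact hB
  | cons p l ih =>
    intro A h
    rw [red, Bool.and_eq_true, Bool.and_eq_true, Bool.and_eq_true, decide_eq_true_iff] at h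
    obtain ⟨⟨⟨h1, h2⟩, h3⟩, h4⟩ := h
    exact ac_remove nb hsymm hirr n A p.1 h1 h2 (chk_sound nb hsymm hirr p.2 _ h3) k (ih _ h4)

end trees

/-! ### the core: an explicit contraction of twice the identity -/

section core

variable {N : ℕ}

/-- all coefficients are even -/
def evn : List (ℕ × ℤ) → Bool
  | [] => true
  | p :: l => (p.2 % 2 == 0) && evn l

theorem evn_sound (l : List (ℕ × ℤ)) (h : evn l = true) (σ : Finset (Fin N)) :
    (2 : ℤ) ∣ ev l σ := by
  induction l with
  | nil => exact dvd_zero 2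
  | cons p l ih =>
    rw [evn, Bool.and_eq_true, beq_iff_eq] at h
    show (2 : ℤ) ∣ (p.2 • Pi.single (mset N p.1) 1 + ev l : Finset (Fin N) → ℤ) σ
    rw [Pi.add_apply, Pi.smul_apply, smul_eq_mul]
    exact dvd_add (Dvd.dvd.mul_right (Int.dvd_of_emod_eq_zero h.1) _) (ih h.2)

/-- the check at one clique -/
def cell (nb : List ℕ) (N B : ℕ) (T : List (ℕ × List (ℕ × ℤ))) (m d : ℕ) : Bool :=
  zc (addg T (fcd m N).2 (dll N (lk T m) [(m, -2)])) && vl nb N B (d + 1) (lk T m) &&
    (d == 2 || evn (lk T m))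

theorem sum_swap (x : Finset (Fin N) → ℤ) (Φ : Finset (Fin N) → (Finset (Fin N) → ℤ)) :
    ∑ σ : Finset (Fin N), x σ • ∑ v ∈ σ, sg Fin.val v (σ.erase v) • Φ (σ.erase v) =
      ∑ τ : Finset (Fin N), dl Fin.val x τ • Φ τ := by
  unfold dl
  simp only [Finset.smul_sum, Finset.sum_smul]
  rw [Finset.sum_sigma', Finset.sum_sigma']
  refine Finset.sum_bij' (fun p _ => ⟨p.1.erase p.2, p.2⟩) (fun p _ => ⟨insert p.2 p.1, p.2⟩)
    ?_ ?_ ?_ ?_ ?_
  · rintro ⟨σ, v⟩ h
    simp only [Finset.mem_sigma, Finset.mem_univ, true_and, Finset.mem_sdiff] at h ⊢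
    exact Finset.notMem_erase v σ
  · rintro ⟨σ, v⟩ h
    simp only [Finset.mem_sigma, Finset.mem_univ, true_and] at h ⊢
    exact Finset.mem_insert_self v σ
  · rintro ⟨σ, v⟩ h
    simp only [Finset.mem_sigma, Finset.mem_univ, true_and] at h ⊢
    rw [Finset.insert_erase h]
  · rintro ⟨σ, v⟩ h
    simp only [Finset.mem_sigma, Finset.mem_univ, true_and, Finset.mem_sdiff] at h ⊢
    rw [Finset.erase_insert h]
  · rintro ⟨σ, v⟩ h
    simp only [Finset.mem_sigma, Finset.mem_univ, true_and] at h ⊢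
    rw [Finset.insert_erase h, smul_smul, mul_comm]

theorem dl_sum {ι : Type} (s : Finset ι) (f : ι → (Finset (Fin N) → ℤ)) :
    dl Fin.val (∑ i ∈ s, f i) = ∑ i ∈ s, dl Fin.val (f i) := by
  classical
  induction s using Finset.induction_on with
  | empty => rw [Finset.sum_empty, Finset.sum_empty, dl_zero]
  | insert a s ha ih => rw [Finset.sum_insert ha, Finset.sum_insert ha, dl_add, ih]

theorem core_sound (nb : List ℕ) (B : ℕ) (T : List (ℕ × List (ℕ × ℤ)))
    (h : en nb (cell nb N B T) N B 0 0 = true) (k : ℕ) :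
    Ac (adjM nb) Fin.val 2 (mset N B) k ∧
      (k ≠ 2 → Ac (adjM nb) Fin.val 1 (mset N B) k) := by
  have key : ∀ σ : Finset (Fin N), σ ⊆ mset N B → Clq (adjM nb) σ →
      (dl Fin.val (ev (lk T (cd σ)) : Finset (Fin N) → ℤ) =
        (2 : ℤ) • Pi.single σ (1 : ℤ) - ∑ v ∈ σ, sg Fin.val v (σ.erase v) •
          (ev (lk T (cd (σ.erase v))) : Finset (Fin N) → ℤ)) ∧
      IsC (adjM nb) (mset N B) (σ.card + 1) (ev (lk T (cd σ)) : Finset (Fin N) → ℤ) ∧
      (σ.card ≠ 2 → ∀ τ : Finset (Fin N), (2 : ℤ) ∣ ev (lk T (cd σ)) τ) := by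
    intro σ h1 h2
    obtain ⟨m, hm, rfl, h3⟩ := en_all nb _ B h σ h1 h2
    rw [cell, Bool.and_eq_true, Bool.and_eq_true, Bool.or_eq_true, beq_iff_eq] at h3
    obtain ⟨⟨h4, h5⟩, h6⟩ := h3
    rw [cd_mset hm]
    refine ⟨?_, vl_sound nb B _ _ h5, fun h7 τ => ?_⟩
    · have h7 := ev_zc (N := N) _ h4
      rw [ev_addg T _ _ (fcd_lt hm N le_rfl), ev_dll, fs_fcd] at h7
      have h8 : (ev [(m, -2)] : Finset (Fin N) → ℤ) = -((2 : ℤ) • Pi.single (mset N m) 1) := by
        show (-2 : ℤ) • Pi.single (mset N m) 1 + 0 = _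
        rw [add_zero, neg_smul]
      rw [h8] at h7
      have h9 := eq_neg_of_add_eq_zero_right h7
      rw [← sub_eq_add_neg, sub_eq_iff_eq_add] at h9
      rw [h9]
      abel
    · rcases h6 with h8 | h8
      · exact absurd h8 h7
      · exact evn_sound _ h8 τ
  -- the general construction
  have main : ∀ x : Finset (Fin N) → ℤ, IsC (adjM nb) (mset N B) k x → dl Fin.val x = 0 →
      ∃ y : Finset (Fin N) → ℤ, IsC (adjM nb) (mset N B) (k + 1) y ∧
        dl Fin.val y = (2 : ℤ) • x ∧ (k ≠ 2 → ∀ τ, (2 : ℤ) ∣ y τ) := by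
    intro x hx hdx
    refine ⟨∑ σ : Finset (Fin N), x σ • (ev (lk T (cd σ)) : Finset (Fin N) → ℤ), ?_, ?_, ?_⟩
    · intro τ hτ
      rw [Finset.sum_apply] at hτ
      obtain ⟨σ, _, h1⟩ := Finset.exists_ne_zero_of_sum_ne_zero hτ
      rw [Pi.smul_apply, smul_eq_mul] at h1
      have h2 : x σ ≠ 0 := fun h' => h1 (by rw [h', zero_mul])
      have h3 : (ev (lk T (cd σ)) : Finset (Fin N) → ℤ) τ ≠ 0 := fun h' =>
        h1 (by rw [h', mul_zero])
      obtain ⟨h4, h5, h6⟩ := hx σ h2
      have h7 := (key σ h5 h6).2.1 τ h3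
      rw [h4] at h7
      exact h7
    · rw [dl_sum]
      have h1 : ∀ σ : Finset (Fin N), dl Fin.val (x σ •
          (ev (lk T (cd σ)) : Finset (Fin N) → ℤ)) =
          (2 : ℤ) • (x σ • Pi.single σ (1 : ℤ)) - x σ • ∑ v ∈ σ, sg Fin.val v (σ.erase v) •
            (ev (lk T (cd (σ.erase v))) : Finset (Fin N) → ℤ) := by
        intro σ
        rw [dl_smul]
        by_cases h2 : x σ = 0
        · rw [h2, zero_smul, zero_smul, zero_smul, smul_zero, sub_zero]
        · obtain ⟨h4, h5, h6⟩ := hx σ h2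
          rw [(key σ h5 h6).1, smul_sub, smul_comm]
      rw [Finset.sum_congr rfl fun σ _ => h1 σ, Finset.sum_sub_distrib, ← Finset.smul_sum,
        sum_swap x (fun τ => (ev (lk T (cd τ)) : Finset (Fin N) → ℤ)), hdx]
      have h2 : ∑ τ : Finset (Fin N), (0 : Finset (Fin N) → ℤ) τ •
          (ev (lk T (cd τ)) : Finset (Fin N) → ℤ) = 0 :=
        Finset.sum_eq_zero fun τ _ => by rw [Pi.zero_apply, zero_smul]
      rw [h2, sub_zero]
      congr 1
      funext τ
      rw [Finset.sum_apply, Finset.sum_eq_single τ]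
      · rw [Pi.smul_apply, Pi.single_eq_same, smul_eq_mul, mul_one]
      · intro σ _ hσ
        rw [Pi.smul_apply, Pi.single_eq_of_ne (Ne.symm hσ), smul_zero]
      · intro h3
        exact absurd (Finset.mem_univ τ) h3
    · intro hk τ
      rw [Finset.sum_apply]
      refine Finset.dvd_sum fun σ _ => ?_
      rw [Pi.smul_apply, smul_eq_mul]
      by_cases h2 : x σ = 0
      · rw [h2, zero_mul]
        exact dvd_zero 2
      · obtain ⟨h4, h5, h6⟩ := hx σ h2
        exact Dvd.dvd.mul_left ((key σ h5 h6).2.2 (by rw [h4]; exact hk) τ) _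
  refine ⟨fun x hx hdx => ?_, fun hk x hx hdx => ?_⟩
  · obtain ⟨y, h1, h2, _⟩ := main x hx hdx
    exact ⟨y, h1, h2⟩
  · obtain ⟨y, h1, h2, h3⟩ := main x hx hdx
    choose z hz using h3 hk
    have hy : y = (2 : ℤ) • z := by
      funext τ
      rw [Pi.smul_apply, smul_eq_mul]
      exact hz τ
    refine ⟨z, fun σ hσ => h1 σ ?_, ?_⟩
    · rw [hz σ]
      exact mul_ne_zero two_ne_zero hσ
    · rw [hy, dl_smul] at h2
      rw [one_smul]
      funext τ
      have h4 := congrFun h2 τ
      rw [Pi.smul_apply, Pi.smul_apply, smul_eq_mul, smul_eq_mul] at h4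
      exact mul_left_cancel₀ two_ne_zero h4

end core

/-! ### a cycle which is not a boundary -/

section bad

variable {N : ℕ}

/-- the parity of the number of the faces in the list -/
def psum (ct : List ℕ) : List (ℕ × Bool) → Bool
  | [] => false
  | p :: l => xor (ct.contains p.1) (psum ct l)

/-- the indicator function of the list modulo two -/
noncomputable def ind (ct : List ℕ) (σ : Finset (Fin N)) : ZMod 2 :=
  if ct.contains (cd σ) = true then 1 else 0

theorem smul_sb (b : Bool) (x : ZMod 2) : sb b 1 • x = x := by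
  cases b
  · show (1 : ℤ) • x = x
    rw [one_smul]
  · show (-1 : ℤ) • x = x
    rw [neg_smul, one_smul]
    exact ZModModule.neg_eq_self x

theorem fs_psum (ct : List ℕ) (l : List (ℕ × Bool)) (hl : ∀ p ∈ l, p.1 < 2 ^ N) :
    fs (ind ct : Finset (Fin N) → ZMod 2) l = if psum ct l = true then 1 else 0 := by
  induction l with
  | nil => rfl
  | cons p l ih =>
    show sb p.2 1 • ind ct (mset N p.1) + fs (ind ct) l = _
    rw [smul_sb, ih fun q hq => hl q (List.mem_cons_of_mem _ hq), ind,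
      cd_mset (hl p List.mem_cons_self), psum]
    cases ct.contains p.1 <;> cases psum ct l <;> simp
    exact CharTwo.add_self_eq_zero (1 : ZMod 2)

/-- the functional -/
noncomputable def phi (ct : List ℕ) (x : Finset (Fin N) → ℤ) : ZMod 2 :=
  ∑ τ : Finset (Fin N), (x τ : ZMod 2) * ind ct τ

theorem phi_dl (ct : List ℕ) (x : Finset (Fin N) → ℤ) : phi ct (dl Fin.val x) =
    ∑ σ : Finset (Fin N), (x σ : ZMod 2) *
      ∑ v ∈ σ, sg Fin.val v (σ.erase v) • ind ct (σ.erase v) := by
  unfold phi dl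
  simp only [Int.cast_sum, Finset.mul_sum, Finset.sum_mul]
  rw [Finset.sum_sigma', Finset.sum_sigma']
  symm
  refine Finset.sum_bij' (fun p _ => ⟨p.1.erase p.2, p.2⟩) (fun p _ => ⟨insert p.2 p.1, p.2⟩)
    ?_ ?_ ?_ ?_ ?_
  · rintro ⟨σ, v⟩ h
    simp only [Finset.mem_sigma, Finset.mem_univ, true_and, Finset.mem_sdiff] at h ⊢
    exact Finset.notMem_erase v σ
  · rintro ⟨σ, v⟩ h
    simp only [Finset.mem_sigma, Finset.mem_univ, true_and] at h ⊢
    exact Finset.mem_insert_self v σ
  · rintro ⟨σ, v⟩ h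
    simp only [Finset.mem_sigma, Finset.mem_univ, true_and] at h ⊢
    rw [Finset.insert_erase h]
  · rintro ⟨σ, v⟩ h
    simp only [Finset.mem_sigma, Finset.mem_univ, true_and, Finset.mem_sdiff] at h ⊢
    rw [Finset.erase_insert h]
  · rintro ⟨σ, v⟩ h
    simp only [Finset.mem_sigma, Finset.mem_univ, true_and] at h ⊢
    rw [Finset.insert_erase h, Int.cast_mul, zsmul_eq_mul]
    ring

/-- the sum of the coefficients of the masks in the list -/
def csum (ct : List ℕ) : List (ℕ × ℤ) → ℤ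
  | [] => 0
  | p :: l => (bif ct.contains p.1 then p.2 else 0) + csum ct l

theorem phi_ev (ct : List ℕ) (l : List (ℕ × ℤ)) (hl : ∀ p ∈ l, p.1 < 2 ^ N) :
    phi ct (ev l : Finset (Fin N) → ℤ) = (csum ct l : ZMod 2) := by
  induction l with
  | nil =>
    show phi ct 0 = ((0 : ℤ) : ZMod 2)
    unfold phi
    simp
  | cons p l ih =>
    have h1 : phi ct (ev (p :: l) : Finset (Fin N) → ℤ) =
        (p.2 : ZMod 2) * ind ct (mset N p.1) + phi ct (ev l : Finset (Fin N) → ℤ) := by
      show phi ct (p.2 • Pi.single (mset N p.1) 1 + ev l) = _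
      unfold phi
      have h2 : ∀ τ : Finset (Fin N), (((p.2 • Pi.single (mset N p.1) (1 : ℤ) + ev l :
          Finset (Fin N) → ℤ) τ : ℤ) : ZMod 2) * ind ct τ =
          (if τ = mset N p.1 then (p.2 : ZMod 2) * ind ct τ else 0) +
          ((ev l : Finset (Fin N) → ℤ) τ : ZMod 2) * ind ct τ := by
        intro τ
        rw [Pi.add_apply, Pi.smul_apply, smul_eq_mul, Int.cast_add, add_mul]
        congr 1
        by_cases h3 : τ = mset N p.1
        · rw [if_pos h3, h3, Pi.single_eq_same, mul_one]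
        · rw [if_neg h3, Pi.single_eq_of_ne h3, mul_zero, Int.cast_zero, zero_mul]
      rw [Finset.sum_congr rfl fun τ _ => h2 τ, Finset.sum_add_distrib,
        Finset.sum_ite_eq' Finset.univ (mset N p.1), if_pos (Finset.mem_univ _)]
    rw [h1, ih fun q hq => hl q (List.mem_cons_of_mem _ hq), csum, Int.cast_add, ind,
      cd_mset (hl p List.mem_cons_self)]
    congr 1
    cases ct.contains p.1 <;> simp

/-- the check at the cliques with three elements -/
def tri (N : ℕ) (ct : List ℕ) (m d : ℕ) : Bool := !(d == 3) || !(psum ct (fcd m N).2)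

/-- the check -/
def badc (nb : List ℕ) (N A : ℕ) (ct : List ℕ) (z : List (ℕ × ℤ)) : Bool :=
  vl nb N A 2 z && zc (dll N z []) && ((csum ct z) % 2 == 1) && en nb (tri N ct) N A 0 0

theorem vl_lt (nb : List ℕ) (A k : ℕ) (l : List (ℕ × ℤ)) (h : vl nb N A k l = true) :
    ∀ p ∈ l, p.1 < 2 ^ N := by
  induction l with
  | nil =>
    intro p hp
    exact absurd hp List.not_mem_nil
  | cons q l ih =>
    intro p hp
    rw [vl, Bool.and_eq_true, Bool.and_eq_true, Bool.and_eq_true, Bool.and_eq_true,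
      decide_eq_true_iff] at h
    rcases List.mem_cons.1 hp with h1 | h1
    · rw [h1]
      exact h.1.1.1.1
    · exact ih h.2 p h1

theorem badc_sound (nb : List ℕ) (A : ℕ) (ct : List ℕ) (z : List (ℕ × ℤ))
    (h : badc nb N A ct z = true) :
    ∃ x : Finset (Fin N) → ℤ, IsC (adjM nb) (mset N A) 2 x ∧ dl Fin.val x = 0 ∧
      ∀ y, IsC (adjM nb) (mset N A) 3 y → dl Fin.val y ≠ x := by
  rw [badc, Bool.and_eq_true, Bool.and_eq_true, Bool.and_eq_true, beq_iff_eq] at h
  obtain ⟨⟨⟨h1, h2⟩, h3⟩, h4⟩ := h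
  refine ⟨ev z, vl_sound nb A 2 z h1, ?_, ?_⟩
  · have h5 := ev_zc (N := N) _ h2
    rw [ev_dll] at h5
    have h6 : (ev ([] : List (ℕ × ℤ)) : Finset (Fin N) → ℤ) = 0 := rfl
    rw [h6, add_zero] at h5
    exact h5
  · intro y hy h5
    have h6 := phi_ev (N := N) ct z (vl_lt nb A 2 z h1)
    rw [← h5, phi_dl] at h6
    have h7 : ∑ σ : Finset (Fin N), (y σ : ZMod 2) *
        ∑ v ∈ σ, sg Fin.val v (σ.erase v) • (ind ct (σ.erase v) : ZMod 2) = 0 := by
      refine Finset.sum_eq_zero fun σ _ => ?_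
      by_cases h8 : y σ = 0
      · rw [h8, Int.cast_zero, zero_mul]
      · obtain ⟨h9, h10, h11⟩ := hy σ h8
        obtain ⟨m, hm, rfl, h12⟩ := en_all nb _ A h4 σ h10 h11
        rw [tri, h9] at h12
        have h13 : psum ct (fcd m N).2 = false := by
          simpa using h12
        rw [← fs_fcd, fs_psum ct _ (fcd_lt hm N le_rfl), h13]
        simp
    rw [h7] at h6
    have h8 : ((csum ct z : ℤ) : ZMod 2) = 1 := by
      have h9 : csum ct z = 2 * (csum ct z / 2) + 1 := by omega
      rw [h9]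
      push_cast
      have h10 : (2 : ZMod 2) = 0 := by decide
      rw [h10, zero_mul, zero_add]
    rw [h8] at h6
    exact zero_ne_one h6

end bad

end Pool.LU.YC
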