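import Pool.Agent.H81.LU.YStmts

/-!
Project LU, part Y, certificates (Y3): the augmented chain complex of a full subcomplex of a flag
complex, cones, removal of a vertex with acyclic link, transfer to the homology of the state
complexes `St`.
-/

set_option autoImplicit false
set_option linter.unusedVariables false
set_option linter.unusedSectionVars false

open scoped BigOperators
open Pool.H3.L2

noncomputable section

namespace Pool.LU.YC

variable {V : Type} [Fintype V] [DecidableEq V] (adj : V → V → Prop) (o : V → ℕ)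

/-- chains on cliques of cardinality `k` contained in `A` -/
def IsC (A : Finset V) (k : ℕ) (x : Finset V → ℤ) : Prop :=
  ∀ σ, x σ ≠ 0 → σ.card = k ∧ σ ⊆ A ∧ Clq adj σ

/-- the boundary -/
def dl (x : Finset V → ℤ) : Finset V → ℤ := fun τ =>
  ∑ v ∈ Finset.univ \ τ, sg o v τ * x (insert v τ)

theorem dl_eq_bd (x : Finset V → ℤ) (τ : Finset V) :
    dl o x τ = bd ℤ o Unit (fun σ _ => x σ) τ () := by
  rw [bd_apply]
  rfl

theorem dl_dl (ho : Function.Injective o) (x : Finset V → ℤ) : dl o (dl o x) = 0 := by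
  funext τ
  have h1 := congrFun (congrFun (bd_bd ℤ o ho Unit (fun σ _ => x σ)) τ) ()
  have h2 : (fun σ (_ : Unit) => dl o x σ) = bd ℤ o Unit (fun σ _ => x σ) := by
    funext σ u
    exact dl_eq_bd o x σ
  rw [dl_eq_bd, h2]
  exact h1

theorem dl_add (x y : Finset V → ℤ) : dl o (x + y) = dl o x + dl o y := by
  funext τ
  simp only [dl, Pi.add_apply, mul_add, Finset.sum_add_distrib]

theorem dl_smul (n : ℤ) (x : Finset V → ℤ) : dl o (n • x) = n • dl o x := by
  funext τ
  simp only [dl, Pi.smul_apply, smul_eq_mul, Finset.mul_sum]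
  exact Finset.sum_congr rfl fun v _ => by ring

theorem dl_zero : dl o (0 : Finset V → ℤ) = 0 := by
  funext τ
  simp [dl]

theorem dl_sub (x y : Finset V → ℤ) : dl o (x - y) = dl o x - dl o y := by
  have h1 : x - y = x + (-1 : ℤ) • y := by
    funext τ
    simp [sub_eq_add_neg]
  rw [h1, dl_add, dl_smul]
  funext τ
  simp [sub_eq_add_neg]

theorem IsC.add {A : Finset V} {k : ℕ} {x y : Finset V → ℤ} (hx : IsC adj A k x)
    (hy : IsC adj A k y) : IsC adj A k (x + y) := by
  intro σ hσ
  by_cases h : x σ = 0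
  · exact hy σ fun h' => hσ (by rw [Pi.add_apply, h, h', add_zero])
  · exact hx σ h

theorem IsC.smul {A : Finset V} {k : ℕ} {x : Finset V → ℤ} (n : ℤ) (hx : IsC adj A k x) :
    IsC adj A k (n • x) := by
  intro σ hσ
  exact hx σ fun h' => hσ (by rw [Pi.smul_apply, h', smul_zero])

theorem IsC.sub {A : Finset V} {k : ℕ} {x y : Finset V → ℤ} (hx : IsC adj A k x)
    (hy : IsC adj A k y) : IsC adj A k (x - y) := by
  intro σ hσ
  by_cases h : x σ = 0
  · exact hy σ fun h' => hσ (by rw [Pi.sub_apply, h, h', sub_zero])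
  · exact hx σ h

theorem IsC.mono {A B : Finset V} (hAB : A ⊆ B) {k : ℕ} {x : Finset V → ℤ}
    (hx : IsC adj A k x) : IsC adj B k x :=
  fun σ hσ => ⟨(hx σ hσ).1, (hx σ hσ).2.1.trans hAB, (hx σ hσ).2.2⟩

/-- `n` times every cycle of degree `k` is a boundary -/
def Ac (n : ℤ) (A : Finset V) (k : ℕ) : Prop :=
  ∀ x, IsC adj A k x → dl o x = 0 → ∃ y, IsC adj A (k + 1) y ∧ dl o y = n • x

/-- the cone with apex `v` -/
def cn (v : V) (w : Finset V → ℤ) : Finset V → ℤ := fun σ =>
  if v ∈ σ then sg o v (σ.erase v) * w (σ.erase v) else 0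

theorem sg_sq (v : V) (τ : Finset V) : sg o v τ * sg o v τ = 1 := by
  unfold sg
  rw [← mul_pow]
  norm_num

theorem dl_cn (ho : Function.Injective o) (v : V) (w : Finset V → ℤ)
    (hw : ∀ σ, v ∈ σ → w σ = 0) (τ : Finset V) :
    dl o (cn o v w) τ =
      if v ∈ τ then - (sg o v (τ.erase v) * dl o w (τ.erase v)) else w τ := by
  split_ifs with hv
  · unfold dl
    have h1 : (Finset.univ \ τ.erase v) = insert v (Finset.univ \ τ) := by
      ext u
      simp only [Finset.mem_sdiff, Finset.mem_univ, true_and, Finset.mem_erase, not_and,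
        Finset.mem_insert]
      constructor
      · intro h
        by_cases huv : u = v
        · exact Or.inl huv
        · exact Or.inr (h huv)
      · rintro (h | h)
        · intro h'
          exact absurd h h'
        · intro _
          exact h
    rw [h1, Finset.sum_insert (by simp [hv]),
      hw (insert v (τ.erase v)) (Finset.mem_insert_self _ _), mul_zero, zero_add,
      Finset.mul_sum, ← Finset.sum_neg_distrib]
    refine Finset.sum_congr rfl fun u hu => ?_
    have hu' : u ∉ τ := (Finset.mem_sdiff.1 hu).2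
    have huv : u ≠ v := fun h => hu' (h ▸ hv)
    unfold cn
    rw [if_pos (Finset.mem_insert_of_mem hv)]
    have h2 : (insert u τ).erase v = insert u (τ.erase v) :=
      Finset.erase_insert_of_ne huv
    rw [h2]
    have h3 := sg_swap o ho u v huv (τ.erase v) (fun h => hu' (Finset.mem_of_mem_erase h))
      (Finset.notMem_erase v τ)
    rw [Finset.insert_erase hv] at h3
    have h4 : sg o u τ = sg o v (τ.erase v) * sg o v (τ.erase v) * sg o u τ := by
      rw [sg_sq, one_mul]
    have h5 := sg_sq o v (insert u (τ.erase v))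
    have h6 := sg_sq o v (τ.erase v)
    -- `sg u τ * sg v (insert u τ') = - sg v τ' * sg u τ'`
    have h7 : sg o u τ * sg o v (insert u (τ.erase v)) =
        - (sg o v (τ.erase v) * sg o u (τ.erase v)) := by
      have h8 : sg o v (τ.erase v) * (sg o u τ * sg o v (insert u (τ.erase v))) =
          - sg o u (τ.erase v) := by
        rw [← mul_assoc, h3]
        linear_combination (-(sg o u (τ.erase v))) * h5
      calc sg o u τ * sg o v (insert u (τ.erase v))
          = (sg o v (τ.erase v) * sg o v (τ.erase v)) *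
            (sg o u τ * sg o v (insert u (τ.erase v))) := by rw [h6, one_mul]
        _ = sg o v (τ.erase v) * (sg o v (τ.erase v) *
            (sg o u τ * sg o v (insert u (τ.erase v)))) := by ring
        _ = _ := by rw [h8]; ring
    linear_combination (w (insert u (τ.erase v))) * h7
  · unfold dl
    rw [Finset.sum_eq_single v]
    · unfold cn
      rw [if_pos (Finset.mem_insert_self v τ), Finset.erase_insert hv, ← mul_assoc, sg_sq,
        one_mul]
    · intro u hu huv
      unfold cn
      rw [if_neg, mul_zero]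
      rw [Finset.mem_insert]
      rintro (h | h)
      · exact huv h.symm
      · exact hv h
    · intro h
      exact absurd (Finset.mem_sdiff.2 ⟨Finset.mem_univ v, hv⟩) h

theorem clq_insert {σ : Finset V} {v : V} (h : Clq adj σ) (h1 : ∀ u ∈ σ, u ≠ v → adj u v ∧ adj v u) :
    Clq adj (insert v σ) := by
  intro a ha b hb hab
  rcases Finset.mem_insert.1 ha with h2 | h2
  · rcases Finset.mem_insert.1 hb with h3 | h3
    · exact absurd (h2.trans h3.symm) hab
    · rw [h2]
      exact (h1 b h3 (fun h' => hab (h2.trans h'.symm))).2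
  · rcases Finset.mem_insert.1 hb with h3 | h3
    · rw [h3]
      exact (h1 a h2 (fun h' => hab (h'.trans h3.symm))).1
    · exact h a h2 b h3 hab

/-- Adding a vertex with an acyclic link. -/
theorem ac_insert (ho : Function.Injective o) (n : ℤ) (A L : Finset V) (v : V) (hv : v ∉ A)
    (hL : ∀ u, u ∈ L ↔ u ∈ A ∧ adj u v ∧ adj v u) (h1 : ∀ k, Ac adj o 1 L k) (k : ℕ)
    (h2 : Ac adj o n A k) : Ac adj o n (insert v A) k := by
  intro x hx hdx
  have hvL : v ∉ L := fun h => hv ((hL v).1 h).1
  -- the part of `x` containing `v` is the cone over a boundary of the link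
  obtain ⟨w, hw, hwy⟩ : ∃ w, IsC adj L k w ∧
      dl o w = fun τ => if v ∈ τ then 0 else sg o v τ * x (insert v τ) := by
    obtain ⟨y, hy⟩ : ∃ y : Finset V → ℤ, y = fun τ => if v ∈ τ then 0 else
        sg o v τ * x (insert v τ) := ⟨_, rfl⟩
    rw [← hy]
    have hysupp : ∀ τ, y τ ≠ 0 → v ∉ τ ∧ x (insert v τ) ≠ 0 := by
      intro τ hτ
      rw [hy] at hτ
      simp only at hτ
      split_ifs at hτ with h
      · exact absurd rfl hτ
      · exact ⟨h, fun h' => hτ (by rw [h', mul_zero])⟩
    have hdy : dl o y = 0 := by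
      funext τ
      rw [Pi.zero_apply]
      by_cases hvτ : v ∈ τ
      · unfold dl
        refine Finset.sum_eq_zero fun u _ => ?_
        rw [hy]
        simp only
        rw [if_pos (Finset.mem_insert_of_mem hvτ), mul_zero]
      · have h3 := congrFun hdx (insert v τ)
        rw [Pi.zero_apply] at h3
        unfold dl at h3 ⊢
        have h4 : (Finset.univ \ τ) = insert v (Finset.univ \ insert v τ) := by
          ext u
          simp only [Finset.mem_sdiff, Finset.mem_univ, true_and, Finset.mem_insert, not_or]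
          constructor
          · intro h
            by_cases huv : u = v
            · exact Or.inl huv
            · exact Or.inr ⟨huv, h⟩
          · rintro (h | h)
            · rw [h]
              exact hvτ
            · exact h.2
        rw [h4, Finset.sum_insert (by simp)]
        have h5 : y (insert v τ) = 0 := by
          rw [hy]
          simp
        rw [h5, mul_zero, zero_add]
        have h6 : ∀ u ∈ Finset.univ \ insert v τ, sg o u τ * y (insert u τ) =
            - (sg o v τ) * (sg o u (insert v τ) * x (insert u (insert v τ))) := by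
          intro u hu
          have hu' := (Finset.mem_sdiff.1 hu).2
          rw [Finset.mem_insert, not_or] at hu'
          have h7 : v ∉ insert u τ := by
            rw [Finset.mem_insert]
            rintro (h | h)
            · exact hu'.1 h.symm
            · exact hvτ h
          rw [hy]
          simp only
          rw [if_neg h7, Finset.insert_comm v u τ]
          have h8 := sg_swap o ho u v hu'.1 τ hu'.2 hvτ
          linear_combination (x (insert u (insert v τ))) * h8
        rw [Finset.sum_congr rfl h6, ← Finset.mul_sum, h3, mul_zero]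
    cases k with
    | zero =>
      refine ⟨0, fun σ hσ => absurd rfl hσ, ?_⟩
      rw [dl_zero]
      funext τ
      rw [Pi.zero_apply]
      by_contra hne
      have h3 := hysupp τ (Ne.symm hne)
      have h4 := (hx _ h3.2).1
      rw [Finset.card_insert_of_notMem h3.1] at h4
      omega
    | succ k =>
      have hyC : IsC adj L k y := by
        intro τ hτ
        obtain ⟨h3, h4⟩ := hysupp τ hτ
        obtain ⟨h5, h6, h7⟩ := hx _ h4
        rw [Finset.card_insert_of_notMem h3] at h5
        refine ⟨by omega, fun u hu => ?_, fun a ha b hb hab =>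
          h7 a (Finset.mem_insert_of_mem ha) b (Finset.mem_insert_of_mem hb) hab⟩
        have huv : u ≠ v := fun h => h3 (h ▸ hu)
        refine (hL u).2 ⟨?_, h7 u (Finset.mem_insert_of_mem hu) v (Finset.mem_insert_self _ _) huv,
          h7 v (Finset.mem_insert_self _ _) u (Finset.mem_insert_of_mem hu) (Ne.symm huv)⟩
        rcases Finset.mem_insert.1 (h6 (Finset.mem_insert_of_mem hu)) with h8 | h8
        · exact absurd h8 huv
        · exact h8
      obtain ⟨w, hw, hwy⟩ := h1 k y hyC hdy
      rw [one_smul] at hwy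
      exact ⟨w, hw, hwy⟩
  have hwv : ∀ σ, v ∈ σ → w σ = 0 := by
    intro σ hσ
    by_contra h
    exact hvL ((hw σ h).2.1 hσ)
  have hcn : IsC adj (insert v A) (k + 1) (cn o v w) := by
    intro σ hσ
    unfold cn at hσ
    split_ifs at hσ with h
    · have h3 : w (σ.erase v) ≠ 0 := fun h' => hσ (by rw [h', mul_zero])
      obtain ⟨h4, h5, h6⟩ := hw _ h3
      have h7 := Finset.card_erase_add_one h
      refine ⟨by omega, fun u hu => ?_, ?_⟩
      · by_cases huv : u = v
        · exact Finset.mem_insert.2 (Or.inl huv)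
        · exact Finset.mem_insert_of_mem ((hL u).1 (h5 (Finset.mem_erase.2 ⟨huv, hu⟩))).1
      · rw [← Finset.insert_erase h]
        refine clq_insert adj h6 fun u hu _ => ?_
        exact ((hL u).1 (h5 hu)).2
    · exact absurd rfl hσ
  have hx' : IsC adj A k (x + dl o (cn o v w)) := by
    intro σ hσ
    rw [Pi.add_apply, dl_cn o ho v w hwv] at hσ
    split_ifs at hσ with h
    · exfalso
      apply hσ
      rw [hwy]
      simp only
      rw [if_neg (Finset.notMem_erase v σ), Finset.insert_erase h, ← mul_assoc, sg_sq, one_mul]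
      ring
    · by_cases h3 : w σ = 0
      · rw [h3, add_zero] at hσ
        obtain ⟨h4, h5, h6⟩ := hx σ hσ
        refine ⟨h4, fun u hu => ?_, h6⟩
        rcases Finset.mem_insert.1 (h5 hu) with h7 | h7
        · exact absurd (h7 ▸ hu) h
        · exact h7
      · obtain ⟨h4, h5, h6⟩ := hw σ h3
        exact ⟨h4, fun u hu => ((hL u).1 (h5 hu)).1, h6⟩
  obtain ⟨u, hu, hdu⟩ := h2 _ hx' (by rw [dl_add, hdx, dl_dl o ho, add_zero])
  refine ⟨u - n • cn o v w, (hu.mono adj (Finset.subset_insert v A)).sub adj (hcn.smul adj n), ?_⟩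
  rw [dl_sub, dl_smul, hdu, smul_add]
  abel

/-- A cone is acyclic. -/
theorem ac_cone (ho : Function.Injective o) (A : Finset V) (c : V) (hc : c ∈ A)
    (hA : ∀ u ∈ A, u ≠ c → adj u c ∧ adj c u) (k : ℕ) : Ac adj o 1 A k := by
  intro x hx hdx
  obtain ⟨w, hw⟩ : ∃ w : Finset V → ℤ, w = fun σ => if c ∈ σ then 0 else x σ := ⟨_, rfl⟩
  have hwc : ∀ σ, c ∈ σ → w σ = 0 := by
    intro σ hσ
    rw [hw]
    simp only
    rw [if_pos hσ]
  have hwn : ∀ σ, c ∉ σ → w σ = x σ := by
    intro σ hσ
    rw [hw]
    simp only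
    rw [if_neg hσ]
  refine ⟨cn o c w, ?_, ?_⟩
  · intro σ hσ
    unfold cn at hσ
    split_ifs at hσ with h
    · have h3 : w (σ.erase c) ≠ 0 := fun h' => hσ (by rw [h', mul_zero])
      rw [hwn _ (Finset.notMem_erase c σ)] at h3
      obtain ⟨h4, h5, h6⟩ := hx _ h3
      have h7 := Finset.card_erase_add_one h
      refine ⟨by omega, fun u hu => ?_, ?_⟩
      · by_cases huv : u = c
        · rw [huv]
          exact hc
        · exact h5 (Finset.mem_erase.2 ⟨huv, hu⟩)
      · rw [← Finset.insert_erase h]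
        exact clq_insert adj h6 fun u hu huc => hA u (h5 hu) huc
    · exact absurd rfl hσ
  · funext τ
    rw [dl_cn o ho c w hwc, one_smul]
    split_ifs with h
    · have h3 := congrFun hdx (τ.erase c)
      rw [Pi.zero_apply] at h3
      unfold dl at h3 ⊢
      have hm : c ∈ Finset.univ \ τ.erase c :=
        Finset.mem_sdiff.2 ⟨Finset.mem_univ c, Finset.notMem_erase c τ⟩
      rw [← Finset.add_sum_erase _ _ hm] at h3 ⊢
      rw [Finset.insert_erase h] at h3 ⊢
      rw [hwc τ h, mul_zero, zero_add]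
      have h4 : ∀ u ∈ (Finset.univ \ τ.erase c).erase c, sg o u (τ.erase c) *
          w (insert u (τ.erase c)) = sg o u (τ.erase c) * x (insert u (τ.erase c)) := by
        intro u hu
        rw [hwn]
        rw [Finset.mem_insert]
        rintro (h5 | h5)
        · exact Finset.ne_of_mem_erase hu h5.symm
        · exact Finset.notMem_erase c τ h5
      rw [Finset.sum_congr rfl h4]
      have h5 := sg_sq o c (τ.erase c)
      linear_combination (x τ) * h5 - sg o c (τ.erase c) * h3
    · rw [hwn τ h]

/-! ### transfer to the state complexes -/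

section st

variable (ho : Function.Injective o) (A : Finset V)

/-- extension by zero of a chain of `St` -/
def exs (f : (St adj o ho A).S → ℤ) : Finset V → ℤ := (stW ℤ adj A).ex f ()

theorem exs_pos (f : (St adj o ho A).S → ℤ) (σ : Finset V) (h : Clq adj σ ∧ σ ⊆ A) :
    exs adj o ho A f σ = f ⟨((), σ), h⟩ := by
  unfold exs WSet.ex
  exact dif_pos h

theorem exs_neg (f : (St adj o ho A).S → ℤ) (σ : Finset V) (h : ¬ (Clq adj σ ∧ σ ⊆ A)) :
    exs adj o ho A f σ = 0 := by
  unfold exs WSet.ex
  exact dif_neg h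

theorem vecMul_St (f : (St adj o ho A).S → ℤ) (q : (St adj o ho A).S) :
    Matrix.vecMul f (St adj o ho A).D q = dl o (exs adj o ho A f) q.1.2 := by
  classical
  have h0 : Matrix.vecMul f (St adj o ho A).D q =
      ∑ p : (stW ℤ adj A).Cell, f p * (stW ℤ adj A).mat o p q := rfl
  rw [h0]
  have h1 : ∀ p : (stW ℤ adj A).Cell, f p * (stW ℤ adj A).mat o p q =
      ∑ v ∈ Finset.univ \ q.1.2, if p.1.2 = insert v q.1.2 then sg o v q.1.2 * f p else 0 := by
    intro p
    have e1 : (stW ℤ adj A).mat o p q = ∑ v ∈ p.1.2, if q.1.2 = p.1.2.erase v then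
        sg o v (p.1.2.erase v) else 0 := by
      unfold WSet.mat
      refine Finset.sum_congr rfl fun v _ => ?_
      by_cases h : q.1.2 = p.1.2.erase v
      · have e2 : (stW ℤ adj A).w v p.1.1 = 0 := rfl
        have e3 : q.1.1 = p.1.1 := rfl
        have e3' : q.1.1 = (stW ℤ adj A).ρ v p.1.1 := rfl
        rw [if_pos h, if_pos h, if_pos e3, if_pos e3', e2, sub_zero, mul_one]
        rfl
      · rw [if_neg h, if_neg h]
    rw [e1, Finset.mul_sum]
    have e4 : ∀ v, (v ∈ p.1.2 ∧ q.1.2 = p.1.2.erase v) ↔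
        (v ∈ Finset.univ \ q.1.2 ∧ p.1.2 = insert v q.1.2) := by
      intro v
      rw [Finset.mem_sdiff]
      constructor
      · rintro ⟨h2, h3⟩
        rw [h3, Finset.insert_erase h2]
        exact ⟨⟨Finset.mem_univ v, Finset.notMem_erase v _⟩, rfl⟩
      · rintro ⟨⟨_, h2⟩, h3⟩
        rw [h3, Finset.erase_insert h2]
        exact ⟨Finset.mem_insert_self _ _, rfl⟩
    have e5 : ∑ v ∈ p.1.2, f p * (if q.1.2 = p.1.2.erase v then sg o v (p.1.2.erase v) else 0) =
        ∑ v : V, if v ∈ p.1.2 ∧ q.1.2 = p.1.2.erase v then sg o v q.1.2 * f p else 0 := by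
      rw [← Finset.sum_filter_add_sum_filter_not Finset.univ (fun v => v ∈ p.1.2)]
      have e6 : ∑ v ∈ Finset.univ.filter (fun v => ¬ v ∈ p.1.2),
          (if v ∈ p.1.2 ∧ q.1.2 = p.1.2.erase v then sg o v q.1.2 * f p else 0) = 0 := by
        refine Finset.sum_eq_zero fun v hv => if_neg ?_
        rintro ⟨h, _⟩
        exact (Finset.mem_filter.1 hv).2 h
      rw [e6, add_zero]
      have e7 : Finset.univ.filter (fun v => v ∈ p.1.2) = p.1.2 := by
        ext v
        simp
      rw [e7]
      refine Finset.sum_congr rfl fun v hv => ?_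
      by_cases h : q.1.2 = p.1.2.erase v
      · rw [if_pos h, if_pos ⟨hv, h⟩, h]
        ring
      · rw [if_neg h, if_neg (fun h' => h h'.2), mul_zero]
    have e8 : ∑ v ∈ Finset.univ \ q.1.2, (if p.1.2 = insert v q.1.2 then
        sg o v q.1.2 * f p else 0) =
        ∑ v : V, if v ∈ Finset.univ \ q.1.2 ∧ p.1.2 = insert v q.1.2 then
          sg o v q.1.2 * f p else 0 := by
      rw [← Finset.sum_filter_add_sum_filter_not Finset.univ
        (fun v => v ∈ Finset.univ \ q.1.2)]
      have e6 : ∑ v ∈ Finset.univ.filter (fun v => ¬ v ∈ Finset.univ \ q.1.2),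
          (if v ∈ Finset.univ \ q.1.2 ∧ p.1.2 = insert v q.1.2 then
            sg o v q.1.2 * f p else 0) = 0 := by
        refine Finset.sum_eq_zero fun v hv => if_neg ?_
        rintro ⟨h, _⟩
        exact (Finset.mem_filter.1 hv).2 h
      rw [e6, add_zero]
      have e7 : Finset.univ.filter (fun v => v ∈ Finset.univ \ q.1.2) =
          Finset.univ \ q.1.2 := by
        ext v
        simp
      rw [e7]
      refine Finset.sum_congr rfl fun v hv => ?_
      by_cases h : p.1.2 = insert v q.1.2
      · rw [if_pos h, if_pos ⟨hv, h⟩]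
      · rw [if_neg h, if_neg (fun h' => h h'.2)]
    rw [e5, e8]
    refine Finset.sum_congr rfl fun v _ => ?_
    by_cases h : v ∈ p.1.2 ∧ q.1.2 = p.1.2.erase v
    · rw [if_pos h, if_pos ((e4 v).1 h)]
    · rw [if_neg h, if_neg fun h' => h ((e4 v).2 h')]
  rw [Finset.sum_congr rfl fun p _ => h1 p, Finset.sum_comm]
  unfold dl
  refine Finset.sum_congr rfl fun v hv => ?_
  by_cases h : Clq adj (insert v q.1.2) ∧ insert v q.1.2 ⊆ A
  · rw [exs_pos adj o ho A f _ h]
    rw [Finset.sum_eq_single (⟨((), insert v q.1.2), h⟩ : (stW ℤ adj A).Cell)]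
    · rw [if_pos rfl]
    · intro p _ hp
      rw [if_neg]
      intro h2
      exact hp (Subtype.ext (Prod.ext rfl h2))
    · intro h2
      exact absurd (Finset.mem_univ _) h2
  · rw [exs_neg adj o ho A f _ h, mul_zero]
    refine Finset.sum_eq_zero fun p _ => if_neg fun h2 => h ?_
    rw [← h2]
    exact p.2

theorem isC_exs (f : (St adj o ho A).S → ℤ) (k : ℕ)
    (hf : ∀ s, (St adj o ho A).deg s ≠ k → f s = 0) : IsC adj A k (exs adj o ho A f) := by
  intro σ hσ
  by_cases h : Clq adj σ ∧ σ ⊆ A
  · rw [exs_pos adj o ho A f σ h] at hσ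
    refine ⟨?_, h.2, h.1⟩
    by_contra h2
    exact hσ (hf _ h2)
  · exact absurd (exs_neg adj o ho A f σ h) hσ

/-- the restriction of a chain to the cells -/
def res (x : Finset V → ℤ) : (St adj o ho A).S → ℤ := fun p => x p.1.2

theorem exs_res (x : Finset V → ℤ) (k : ℕ) (hx : IsC adj A k x) :
    exs adj o ho A (res adj o ho A x) = x := by
  funext σ
  by_cases h : Clq adj σ ∧ σ ⊆ A
  · rw [exs_pos adj o ho A _ σ h]
    rfl
  · rw [exs_neg adj o ho A _ σ h]
    by_contra h2
    have h3 := hx σ (Ne.symm h2)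
    exact h ⟨h3.2.2, h3.2.1⟩

theorem dl_exs (f : (St adj o ho A).S → ℤ) (hf : Matrix.vecMul f (St adj o ho A).D = 0) :
    dl o (exs adj o ho A f) = 0 := by
  funext τ
  rw [Pi.zero_apply]
  by_cases h : Clq adj τ ∧ τ ⊆ A
  · have h1 := congrFun hf (⟨((), τ), h⟩ : (stW ℤ adj A).Cell)
    exact (vecMul_St adj o ho A f (⟨((), τ), h⟩ : (stW ℤ adj A).Cell)).symm.trans h1
  · unfold dl
    refine Finset.sum_eq_zero fun v _ => ?_
    rw [exs_neg, mul_zero]
    rintro ⟨h1, h2⟩
    exact h ⟨fun a ha b hb hab => h1 a (Finset.mem_insert_of_mem ha) b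
      (Finset.mem_insert_of_mem hb) hab, fun u hu => h2 (Finset.mem_insert_of_mem hu)⟩

theorem smul_mem_Bk (n : ℤ) (k : ℕ) (h : Ac adj o n A k) (f : (St adj o ho A).S → ℤ)
    (hf : f ∈ (St adj o ho A).Zk k) : n • f ∈ (St adj o ho A).Bk k := by
  obtain ⟨y, hy, hdy⟩ := h _ (isC_exs adj o ho A f k hf.1) (dl_exs adj o ho A f hf.2)
  refine ⟨res adj o ho A y, fun s hs => ?_, ?_⟩
  · by_contra h1
    exact hs (hy _ h1).1
  · funext q
    rw [vecMul_St, exs_res adj o ho A y (k + 1) hy, hdy, Pi.smul_apply, Pi.smul_apply]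
    congr 1
    exact exs_pos adj o ho A f q.1.2 q.2

theorem subsingleton_Hk (k : ℕ) (h : Ac adj o 1 A k) : Subsingleton ((St adj o ho A).Hk k) := by
  rw [Submodule.Quotient.subsingleton_iff, eq_top_iff]
  intro f _
  have h1 := smul_mem_Bk adj o ho A 1 k h f.1 f.2
  rw [one_smul] at h1
  exact h1

theorem finite_Hk (k : ℕ) (n : ℤ) (hn : n ≠ 0) (h : Ac adj o n A k) :
    Finite ((St adj o ho A).Hk k) := by
  refine Module.finite_of_fg_torsion _ ?_
  intro x
  obtain ⟨f, rfl⟩ := Submodule.Quotient.mk_surjective _ x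
  refine ⟨⟨n, mem_nonZeroDivisors_of_ne_zero hn⟩, ?_⟩
  show n • (Submodule.Quotient.mk f : (St adj o ho A).Hk k) = 0
  rw [← Submodule.Quotient.mk_smul, Submodule.Quotient.mk_eq_zero]
  exact smul_mem_Bk adj o ho A n k h f.1 f.2

theorem one_lt_card_Hk (k : ℕ) (hfin : Finite ((St adj o ho A).Hk k)) (x : Finset V → ℤ)
    (hx : IsC adj A k x) (hdx : dl o x = 0)
    (h : ∀ y, IsC adj A (k + 1) y → dl o y ≠ x) : 1 < Nat.card ((St adj o ho A).Hk k) := by
  have hmem : res adj o ho A x ∈ (St adj o ho A).Zk k := by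
    refine ⟨fun s hs => ?_, ?_⟩
    · by_contra h1
      exact hs (hx _ h1).1
    · funext q
      rw [vecMul_St, exs_res adj o ho A x k hx, hdx]
      rfl
  rw [Finite.one_lt_card_iff_nontrivial]
  refine ⟨⟨Submodule.Quotient.mk ⟨_, hmem⟩, 0, ?_⟩⟩
  rw [Ne, Submodule.Quotient.mk_eq_zero]
  rintro ⟨w, hw, hw2⟩
  refine h (exs adj o ho A w) (isC_exs adj o ho A w (k + 1) hw) ?_
  funext τ
  by_cases h1 : Clq adj τ ∧ τ ⊆ A
  · have h2 := congrFun hw2 (⟨((), τ), h1⟩ : (stW ℤ adj A).Cell)
    exact (vecMul_St adj o ho A w (⟨((), τ), h1⟩ : (stW ℤ adj A).Cell)).symm.trans h2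
  · have h3 : x τ = 0 := by
      by_contra h2
      exact h1 ⟨(hx τ h2).2.2, (hx τ h2).2.1⟩
    rw [h3]
    unfold dl
    refine Finset.sum_eq_zero fun v _ => ?_
    rw [exs_neg, mul_zero]
    rintro ⟨h4, h5⟩
    exact h1 ⟨fun a ha b hb hab => h4 a (Finset.mem_insert_of_mem ha) b
      (Finset.mem_insert_of_mem hb) hab, fun u hu => h5 (Finset.mem_insert_of_mem hu)⟩

end st

end Pool.LU.YC
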