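import Pool.Agent.H84.LU.YChk
import Pool.Agent.H41.LU.Y36

/-!
Project LU, part Y, certificates (Y3): the data for the 32 states of the complex `T_Y` with 36
vertices.
-/

set_option autoImplicit false
set_option maxRecDepth 100000

namespace Pool.LU.YC

open Pool.LU.Chk

/-- certificate of a state -/
inductive Ct
  | g (t : Tr)
  | b (l : List (ℕ × Tr)) (B : ℕ) (T : List (ℕ × List (ℕ × ℤ)))

/-- colours -/
def colY : List ℕ := [0, 2, 3, 3, 4, 1, 3, 2, 3, 2, 1, 1, 2, 4, 1, 0, 0, 1, 4, 1, 2, 3, 2, 0, 0, 2, 2, 4, 3, 3, 1, 4, 1, 4, 0, 2]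

/-- signs (`true` is `-1`) -/
def sgY : List Bool := [false, false, true, false, true, false, true, true, false, true, false, true, false, false, true, true, true, true, false, false, true, true, true, false, true, true, false, false, false, false, false, true, false, true, true, false]

/-- state 0 -/
def t0 : Tr :=
  .n 7 (.c 6) (.n 9 (.c 11) (.n 6 (.c 20) (.n 14 (.c 15) (.n 17 (.c 20) (.n 20 (.c 11) (.n 4 (.c
  2) (.n 15 (.c 31) (.n 22 (.c 21) (.n 21 (.c 11) (.n 24 (.c 11) (.n 25 (.c 2) (.c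
  11))))))))))))

/-- state 1 -/
def t1 : Tr :=
  .n 7 (.c 6) (.n 14 (.c 23) (.n 17 (.c 6) (.n 20 (.c 6) (.n 6 (.c 9) (.n 4 (.c 2) (.n 2 (.c 31)
  (.n 9 (.c 21) (.n 11 (.c 21) (.n 21 (.c 22) (.n 23 (.c 31) (.c 0)))))))))))

/-- state 2 -/
def t2 : Tr :=
  .n 5 (.c 2) (.n 7 (.c 6) (.n 10 (.c 21) (.n 16 (.c 30) (.n 20 (.c 6) (.n 6 (.c 9) (.n 4 (.c 2)
  (.n 15 (.c 31) (.n 22 (.c 19) (.n 24 (.c 21) (.n 25 (.c 2) (.n 30 (.c 9) (.n 9 (.c 32) (.n 33
  (.c 21) (.n 21 (.c 31) (.c 2)))))))))))))))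

/-- state 3 -/
def t3 : Tr :=
  .n 5 (.c 2) (.n 7 (.c 6) (.n 10 (.c 0) (.n 20 (.c 6) (.n 6 (.c 9) (.n 4 (.c 2) (.n 2 (.c 31)
  (.n 9 (.c 0) (.n 22 (.c 19) (.n 23 (.c 19) (.c 0))))))))))

/-- state 4 -/
def t4 : Tr :=
  .n 12 (.c 11) (.n 14 (.c 15) (.n 1 (.c 17) (.n 16 (.c 11) (.n 17 (.c 6) (.n 6 (.c 11) (.n 4
  (.c 2) (.n 15 (.c 31) (.n 24 (.c 21) (.n 26 (.c 2) (.n 33 (.c 21) (.n 21 (.c 31) (.c
  2))))))))))))

/-- state 5 -/
def t5 : Tr :=
  .n 12 (.c 21) (.n 14 (.c 23) (.n 26 (.c 2) (.n 1 (.n 0 (.c 17) (.n 23 (.c 4) (.c 17))) (.n 17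
  (.c 6) (.n 23 (.c 35) (.n 4 (.n 6 (.c 11) (.c 2)) (.n 2 (.c 31) (.n 6 (.c 33) (.c 21)))))))))

/-- state 6 -/
def t6 : Tr :=
  .n 5 (.c 2) (.n 10 (.c 12) (.n 12 (.c 21) (.n 24 (.c 33) (.n 26 (.c 2) (.n 16 (.c 30) (.n 34
  (.c 4) (.n 1 (.n 15 (.c 4) (.c 19)) (.n 15 (.c 32) (.n 19 (.c 35) (.n 4 (.c 32) (.n 2 (.c 31)
  (.n 6 (.c 33) (.c 21)))))))))))))

/-- state 7 -/
def t7 : Tr :=
  .n 1 (.c 19) (.n 5 (.c 2) (.n 10 (.c 0) (.n 12 (.c 0) (.n 19 (.c 35) (.n 26 (.c 2) (.n 23 (.c
  35) (.n 4 (.c 32) (.c 0))))))))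

/-- state 8 -/
def t8 : Tr :=
  .n 7 (.c 8) (.n 9 (.c 11) (.n 14 (.c 15) (.n 8 (.c 17) (.n 4 (.c 3) (.n 17 (.c 20) (.n 20 (.c
  11) (.n 24 (.c 29) (.n 28 (.c 31) (.n 33 (.c 29) (.n 22 (.c 15) (.n 15 (.c 11) (.n 29 (.c 11)
  (.n 31 (.c 16) (.c 3))))))))))))))

/-- state 9 -/
def t9 : Tr :=
  .n 7 (.c 8) (.n 14 (.c 23) (.n 28 (.c 31) (.n 8 (.n 0 (.c 17) (.n 23 (.c 4) (.c 17))) (.n 17
  (.c 20) (.n 4 (.n 9 (.c 11) (.c 3)) (.n 3 (.n 11 (.c 20) (.n 20 (.c 0) (.c 25))) (.n 20 (.c
  29) (.n 25 (.c 31) (.n 23 (.c 22) (.n 22 (.c 0) (.n 29 (.c 33) (.c 9))))))))))))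

/-- vertices removed from state 10 -/
def l10 : List (ℕ × Tr) :=
  [(34, .c 4), (5, .c 25), (28, .c 31), (7, .c 8), (30, .c 16), (10, .c 22), (24, .c 33)]

/-- contraction of the core of state 10 -/
def T10 : List (ℕ × List (ℕ × ℤ)) :=
  [(0, [(32768, .ofNat 2)]), (8, [(1048584, .negSucc 1), (1081344, .ofNat 2)]), (24, [(1048600,
  .ofNat 2), (1081360, .ofNat 2)]), (32792, [(1081368, .negSucc 1)]), (1081368, []), (524312,
  []), (34078744, []), (1048600, []), (33554456, []), (32776, [(1081352, .ofNat 2)]), (1081352,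
  []), (65544, [(1114120, .ofNat 2)]), (1114120, []), (33619976, []), (524296, [(524312,
  .negSucc 1), (1048600, .ofNat 2), (1081360, .ofNat 2)]), (34078728, [(34078744, .negSucc 1)]),
  (1048584, []), (33554440, [(1048600, .ofNat 2), (1081360, .ofNat 2), (33554456, .negSucc 1),
  (34078736, .negSucc 1)]), (16, [(32784, .negSucc 1)]), (272, [(33040, .ofNat 2)]), (33040,
  []), (4295000336, []), (524560, []), (4294967568, []), (528, [(33296, .ofNat 2)]), (33296,
  []), (4295000592, []), (4294967824, [(4295000592, .ofNat 2)]), (32784, []), (1081360, []),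
  (4295000080, []), (524304, []), (34078736, []), (1048592, [(1081360, .negSucc 1)]), (33554448,
  [(34078736, .negSucc 1)]), (4294967312, [(4295000080, .negSucc 1)]), (256, [(33024, .negSucc
  1)]), (33024, []), (4295000320, [(4295000336, .ofNat 2)]), (524544, [(33040, .negSucc 1),
  (524560, .ofNat 2)]), (8590459136, []), (4294967552, [(33040, .negSucc 1), (4294967568, .ofNat
  2), (4295000080, .negSucc 1)]), (12884902144, []), (8589934848, [(33040, .negSucc 1), (524560,
  .ofNat 1), (1048600, .negSucc 0), (1081360, .negSucc 0), (1114120, .ofNat 1), (33554456,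
  .ofNat 1), (33619976, .negSucc 0), (34078736, .ofNat 1), (537952256, .negSucc 0), (541097984,
  .ofNat 1), (2147516928, .negSucc 0), (2147549696, .ofNat 1), (2151710720, .negSucc 0),
  (2152202240, .ofNat 1), (2181103616, .ofNat 1), (2181562368, .negSucc 0), (4294967568, .ofNat
  1), (4295000080, .negSucc 0), (4295000576, .ofNat 1), (8590000640, .negSucc 0), (8590459136,
  .negSucc 0), (8591048704, .negSucc 0), (8594653184, .negSucc 0), (9127854080, .ofNat 1),
  (9130999808, .negSucc 0), (12884902144, .negSucc 0), (12884902400, .ofNat 1)]), (512, [(33280,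
  .negSucc 1)]), (33280, []), (2147516928, []), (6442484224, []), (4295000576, []), (66048,
  [(524560, .ofNat 1), (1048600, .negSucc 0), (1081360, .negSucc 0), (1114120, .ofNat 1),
  (33554456, .ofNat 1), (33619976, .negSucc 0), (34078736, .ofNat 1), (537952256, .negSucc 0),
  (541097984, .ofNat 1), (2147516928, .negSucc 0), (2147549696, .ofNat 1), (2151710720, .negSucc
  0), (2152202240, .ofNat 1), (2181103616, .ofNat 1), (2181562368, .negSucc 0), (4294967568,
  .negSucc 0), (4295000080, .ofNat 1), (4295000576, .negSucc 0), (8590000640, .ofNat 1),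
  (8590459136, .negSucc 0), (8591048704, .ofNat 1), (8594653184, .negSucc 0), (9127854080,
  .ofNat 1), (9130999808, .negSucc 0), (12884902144, .ofNat 1), (12884902400, .negSucc 0)]),
  (2147549696, []), (8590000640, []), (2147484160, [(2147516928, .negSucc 1)]), (6442451456,
  []), (4294967808, [(4295000576, .negSucc 1)]), (12884902400, []), (8589935104, [(524560,
  .ofNat 1), (1048600, .negSucc 0), (1081360, .negSucc 0), (1114120, .ofNat 1), (33554456,
  .ofNat 1), (33619976, .negSucc 0), (34078736, .ofNat 1), (537952256, .negSucc 0), (541097984,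
  .ofNat 1), (2147516928, .negSucc 0), (2147549696, .ofNat 1), (2151710720, .negSucc 0),
  (2152202240, .ofNat 1), (2181103616, .ofNat 1), (2181562368, .negSucc 0), (4294967568,
  .negSucc 0), (4295000080, .ofNat 1), (4295000576, .negSucc 0), (8590000640, .negSucc 0),
  (8590459136, .negSucc 0), (8591048704, .negSucc 0), (8594653184, .negSucc 0), (9127854080,
  .ofNat 1), (9130999808, .negSucc 0), (12884902144, .ofNat 1), (12884902400, .negSucc 0)]),
  (32768, []), (1081344, []), (537952256, []), (4227072, []), (541097984, []), (2151710720, []),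
  (536903680, []), (2147516416, []), (6442483712, [(6442484224, .ofNat 2)]), (4295000064, []),
  (65536, [(1081344, .ofNat 2), (1114112, .negSucc 1)]), (1114112, []), (537985024, []),
  (9127919616, []), (8591048704, []), (33619968, [(1048600, .ofNat 2), (1081360, .ofNat 2),
  (1114120, .negSucc 1), (33554456, .negSucc 1), (33619976, .ofNat 2), (34078736, .negSucc 1)]),
  (2181103616, []), (536936448, [(537952256, .ofNat 2), (537985024, .negSucc 1)]), (9126871040,
  [(9127919616, .negSucc 1)]), (2147549184, [(524560, .negSucc 0), (1048600, .ofNat 1),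
  (1081360, .ofNat 1), (1114120, .negSucc 0), (33554456, .negSucc 0), (33619976, .ofNat 1),
  (34078736, .negSucc 0), (537952256, .ofNat 1), (541097984, .negSucc 0), (2147516928, .negSucc
  0), (2147549696, .ofNat 1), (2151710720, .ofNat 1), (2152202240, .negSucc 0), (2181103616,
  .negSucc 0), (2181562368, .ofNat 1), (4294967568, .ofNat 1), (4295000080, .negSucc 0),
  (4295000576, .ofNat 1), (8590000640, .negSucc 0), (8590459136, .ofNat 1), (8591048704,
  .negSucc 0), (8594653184, .ofNat 1), (9127854080, .negSucc 0), (9130999808, .ofNat 1),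
  (12884902144, .negSucc 0), (12884902400, .ofNat 1)]), (8590000128, [(8591048704, .negSucc
  1)]), (524288, [(32784, .negSucc 1), (524304, .ofNat 2)]), (4718592, [(524560, .negSucc 0),
  (1048600, .negSucc 0), (1081360, .negSucc 0), (1114120, .ofNat 1), (33554456, .ofNat 1),
  (33619976, .negSucc 0), (34078736, .ofNat 1), (537952256, .ofNat 1), (541097984, .negSucc 0),
  (2147516928, .negSucc 0), (2147549696, .ofNat 1), (2151710720, .negSucc 0), (2152202240,
  .ofNat 1), (2181103616, .ofNat 1), (2181562368, .negSucc 0), (4294967568, .ofNat 1),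
  (4295000080, .negSucc 0), (4295000576, .ofNat 1), (8590000640, .negSucc 0), (8590459136,
  .ofNat 1), (8591048704, .negSucc 0), (8594653184, .ofNat 1), (9127854080, .negSucc 0),
  (9130999808, .ofNat 1), (12884902144, .negSucc 0), (12884902400, .ofNat 1)]), (541589504, []),
  (9131524096, []), (2152202240, []), (8594653184, []), (34078720, []), (2181562368, []),
  (537395200, [(524560, .negSucc 0), (1048600, .negSucc 0), (1081360, .negSucc 0), (1114120,
  .ofNat 1), (33554456, .ofNat 1), (33619976, .negSucc 0), (34078736, .ofNat 1), (537952256,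
  .ofNat 1), (541097984, .ofNat 1), (541589504, .negSucc 1), (2147516928, .negSucc 0),
  (2147549696, .ofNat 1), (2151710720, .negSucc 0), (2152202240, .ofNat 1), (2181103616, .ofNat
  1), (2181562368, .negSucc 0), (4294967568, .ofNat 1), (4295000080, .negSucc 0), (4295000576,
  .ofNat 1), (8590000640, .negSucc 0), (8590459136, .ofNat 1), (8591048704, .negSucc 0),
  (8594653184, .ofNat 1), (9127854080, .negSucc 0), (9130999808, .ofNat 1), (12884902144,
  .negSucc 0), (12884902400, .ofNat 1)]), (9127329792, [(9131524096, .negSucc 1)]), (2148007936,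
  [(524560, .negSucc 0), (1048600, .negSucc 0), (1081360, .negSucc 0), (1114120, .ofNat 1),
  (33554456, .ofNat 1), (33619976, .negSucc 0), (34078736, .ofNat 1), (537952256, .ofNat 1),
  (541097984, .negSucc 0), (2147516928, .negSucc 0), (2147549696, .ofNat 1), (2151710720, .ofNat
  1), (2152202240, .negSucc 0), (2181103616, .ofNat 1), (2181562368, .negSucc 0), (4294967568,
  .ofNat 1), (4295000080, .negSucc 0), (4295000576, .ofNat 1), (8590000640, .negSucc 0),
  (8590459136, .ofNat 1), (8591048704, .negSucc 0), (8594653184, .ofNat 1), (9127854080,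
  .negSucc 0), (9130999808, .ofNat 1), (12884902144, .negSucc 0), (12884902400, .ofNat 1)]),
  (8590458880, [(524560, .negSucc 0), (1048600, .negSucc 0), (1081360, .negSucc 0), (1114120,
  .ofNat 1), (33554456, .ofNat 1), (33619976, .negSucc 0), (34078736, .ofNat 1), (537952256,
  .negSucc 0), (541097984, .ofNat 1), (2147516928, .negSucc 0), (2147549696, .ofNat 1),
  (2151710720, .negSucc 0), (2152202240, .ofNat 1), (2181103616, .ofNat 1), (2181562368,
  .negSucc 0), (4294967568, .ofNat 1), (4295000080, .negSucc 0), (4295000576, .ofNat 1),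
  (8590000640, .negSucc 0), (8590459136, .ofNat 1), (8591048704, .negSucc 0), (8594653184,
  .negSucc 0), (9127854080, .ofNat 1), (9130999808, .negSucc 0), (12884902144, .negSucc 0),
  (12884902400, .ofNat 1)]), (1048576, [(1081344, .ofNat 2)]), (537919488, [(537952256, .ofNat
  2)]), (9127854080, []), (8590983168, []), (4194304, [(4227072, .ofNat 2)]), (541065216,
  [(541097984, .ofNat 2)]), (9130999808, []), (2151677952, [(2151710720, .ofNat 2)]),
  (8594128896, [(537952256, .negSucc 1), (541097984, .ofNat 2), (9127854080, .ofNat 2),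
  (9130999808, .negSucc 1)]), (33554432, [(32784, .negSucc 1), (524304, .ofNat 2), (34078720,
  .ofNat 2)]), (2181038080, [(524560, .negSucc 0), (1048600, .negSucc 0), (1081360, .negSucc 0),
  (1114120, .ofNat 1), (33554456, .ofNat 1), (33619976, .negSucc 0), (34078736, .ofNat 1),
  (537952256, .ofNat 1), (541097984, .negSucc 0), (2147516928, .negSucc 0), (2147549696, .ofNat
  1), (2151710720, .ofNat 1), (2152202240, .negSucc 0), (2181103616, .ofNat 1), (2181562368,
  .ofNat 1), (4294967568, .ofNat 1), (4295000080, .negSucc 0), (4295000576, .ofNat 1),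
  (8590000640, .negSucc 0), (8590459136, .ofNat 1), (8591048704, .negSucc 0), (8594653184,
  .ofNat 1), (9127854080, .negSucc 0), (9130999808, .ofNat 1), (12884902144, .negSucc 0),
  (12884902400, .ofNat 1)]), (536870912, [(536903680, .ofNat 2)]), (9126805504, [(537952256,
  .negSucc 1), (9127854080, .ofNat 2)]), (2147483648, [(2147516416, .ofNat 2)]), (6442450944,
  [(2147516928, .ofNat 2), (4295000576, .negSucc 1), (6442451456, .ofNat 2)]), (4294967296,
  [(4295000064, .ofNat 2)]), (12884901888, [(524560, .ofNat 1), (1048600, .negSucc 0), (1081360,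
  .negSucc 0), (1114120, .ofNat 1), (33554456, .ofNat 1), (33619976, .negSucc 0), (34078736,
  .ofNat 1), (537952256, .negSucc 0), (541097984, .ofNat 1), (2147516928, .negSucc 0),
  (2147549696, .ofNat 1), (2151710720, .negSucc 0), (2152202240, .ofNat 1), (2181103616, .ofNat
  1), (2181562368, .negSucc 0), (4294967568, .negSucc 0), (4295000080, .ofNat 1), (4295000576,
  .ofNat 1), (8590000640, .negSucc 0), (8590459136, .negSucc 0), (8591048704, .negSucc 0),
  (8594653184, .negSucc 0), (9127854080, .ofNat 1), (9130999808, .negSucc 0), (12884902144,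
  .ofNat 1), (12884902400, .ofNat 1)]), (8589934592, [(1081344, .ofNat 2), (8590983168, .ofNat
  2)])]

/-- state 11 -/
def t11 : Tr :=
  .n 5 (.c 23) (.n 7 (.c 8) (.n 10 (.c 0) (.n 22 (.c 19) (.n 23 (.c 19) (.n 28 (.c 0) (.n 29 (.c
  0) (.n 30 (.c 0) (.n 9 (.c 32) (.n 25 (.c 19) (.n 31 (.c 0) (.n 32 (.c 8) (.n 8 (.c 19) (.n 4
  (.c 3) (.c 0))))))))))))))

/-- state 12 -/
def t12 : Tr :=
  .n 12 (.c 11) (.n 14 (.c 15) (.n 1 (.c 17) (.n 16 (.c 11) (.n 3 (.c 4) (.n 24 (.c 33) (.n 26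
  (.c 11) (.n 28 (.c 11) (.n 31 (.c 15) (.n 34 (.c 4) (.n 4 (.c 15) (.n 11 (.c 29) (.n 29 (.c
  17) (.c 8)))))))))))))

/-- state 13 -/
def t13 : Tr :=
  .n 14 (.c 23) (.n 17 (.c 1) (.n 28 (.c 31) (.n 3 (.n 0 (.c 1) (.c 4)) (.n 4 (.n 1 (.c 8) (.n 8
  (.c 23) (.n 11 (.c 26) (.c 23)))) (.n 26 (.c 31) (.n 11 (.c 12) (.n 12 (.c 0) (.n 29 (.c 1)
  (.n 1 (.c 8) (.c 35))))))))))

/-- state 14 -/
def t14 : Tr :=
  .n 5 (.c 26) (.n 10 (.c 12) (.n 24 (.c 33) (.n 28 (.c 31) (.n 30 (.c 16) (.n 32 (.c 35) (.n 34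
  (.c 4) (.n 3 (.n 1 (.c 4) (.n 15 (.c 4) (.n 16 (.c 26) (.c 4)))) (.n 26 (.n 4 (.c 15) (.c 31))
  (.n 4 (.c 8) (.n 16 (.c 12) (.n 12 (.n 31 (.c 15) (.c 29)) (.n 29 (.c 1) (.n 1 (.c 8) (.c
  35))))))))))))))

/-- state 15 -/
def t15 : Tr :=
  .n 1 (.c 19) (.n 5 (.c 23) (.n 8 (.c 35) (.n 10 (.c 0) (.n 12 (.c 0) (.n 26 (.c 23) (.n 23 (.c
  19) (.n 28 (.c 0) (.n 29 (.c 0) (.n 30 (.c 0) (.n 3 (.c 19) (.c 35)))))))))))

/-- state 16 -/
def t16 : Tr :=
  .n 7 (.c 6) (.n 9 (.c 11) (.n 6 (.c 20) (.n 14 (.c 15) (.n 17 (.c 20) (.n 20 (.c 11) (.n 13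
  (.c 21) (.n 24 (.c 21) (.n 22 (.c 15) (.n 15 (.c 11) (.n 2 (.c 27) (.n 18 (.c 16) (.n 21 (.c
  11) (.c 27)))))))))))))

/-- state 17 -/
def t17 : Tr :=
  .n 7 (.c 6) (.n 14 (.c 23) (.n 17 (.c 20) (.n 2 (.n 0 (.c 27) (.n 9 (.c 11) (.n 11 (.c 27) (.c
  25)))) (.n 25 (.n 23 (.c 18) (.c 0)) (.n 23 (.c 22) (.n 27 (.c 6) (.n 18 (.n 11 (.c 20) (.c
  0)) (.n 11 (.c 13) (.n 20 (.c 6) (.n 6 (.c 9) (.c 21)))))))))))

/-- state 18 -/
def t18 : Tr :=
  .n 5 (.c 25) (.n 7 (.c 6) (.n 10 (.c 22) (.n 16 (.c 30) (.n 24 (.c 13) (.n 32 (.c 9) (.n 34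
  (.c 27) (.n 2 (.n 15 (.c 9) (.c 27)) (.n 19 (.n 13 (.c 21) (.n 21 (.c 22) (.n 22 (.c 18) (.c
  25)))) (.n 13 (.c 15) (.n 22 (.c 15) (.n 21 (.c 9) (.n 9 (.c 6) (.n 6 (.c 20) (.n 15 (.c 18)
  (.c 30)))))))))))))))

/-- state 19 -/
def t19 : Tr :=
  .n 5 (.c 25) (.n 7 (.c 6) (.n 10 (.c 22) (.n 22 (.c 19) (.n 23 (.c 19) (.n 2 (.c 0) (.n 18 (.c
  0) (.n 20 (.c 6) (.n 6 (.c 9) (.n 13 (.c 21) (.c 0))))))))))

/-- state 20 -/
def t20 : Tr :=
  .n 12 (.c 11) (.n 14 (.c 15) (.n 1 (.c 17) (.n 16 (.c 11) (.n 18 (.c 15) (.n 17 (.c 6) (.n 6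
  (.c 11) (.n 13 (.c 21) (.n 24 (.c 21) (.n 21 (.c 15) (.c 2))))))))))

/-- vertices removed from state 21 -/
def l21 : List (ℕ × Tr) :=
  [(23, .c 14)]

/-- contraction of the core of state 21 -/
def T21 : List (ℕ × List (ℕ × ℤ)) :=
  [(0, [(1, .ofNat 2)]), (1, []), (3, []), (131075, []), (393219, []), (134348803, []), (262147,
  []), (134217731, []), (5, []), (134217733, []), (34493956101, []), (34359738373, []), (65,
  [(134217793, .ofNat 2)]), (131137, [(134348865, .negSucc 1)]), (134348865, []), (134217793,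
  []), (4097, []), (266241, []), (2101249, []), (131073, []), (393217, [(393219, .negSucc 1)]),
  (134348801, []), (262145, []), (2097153, []), (34361835521, []), (134217729, []),
  (34493956097, [(34493956101, .negSucc 1)]), (34359738369, []), (2, [(3, .ofNat 2)]), (8194,
  [(10304, .negSucc 0), (24578, .ofNat 1), (131075, .ofNat 1), (139266, .ofNat 1), (139328,
  .negSucc 0), (262147, .ofNat 1), (266241, .negSucc 0), (268288, .ofNat 1), (278530, .ofNat 1),
  (2101249, .ofNat 1), (2103296, .negSucc 0), (2107392, .ofNat 1), (67110916, .ofNat 1),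
  (67125252, .negSucc 0), (67373056, .ofNat 1), (67387392, .negSucc 0), (134217733, .negSucc 0),
  (134219780, .negSucc 0), (134219840, .ofNat 1), (134348801, .ofNat 1), (134348864, .negSucc
  0), (34359738373, .ofNat 1), (34359754756, .ofNat 1), (34359762944, .negSucc 0), (34361835521,
  .ofNat 1), (34361843712, .negSucc 0)]), (24578, []), (139266, []), (16386, [(10304, .negSucc
  0), (24578, .negSucc 0), (131075, .ofNat 1), (139266, .ofNat 1), (139328, .negSucc 0),
  (262147, .ofNat 1), (266241, .negSucc 0), (268288, .ofNat 1), (278530, .ofNat 1), (2101249,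
  .ofNat 1), (2103296, .negSucc 0), (2107392, .ofNat 1), (67110916, .ofNat 1), (67125252,
  .negSucc 0), (67373056, .ofNat 1), (67387392, .negSucc 0), (134217733, .negSucc 0),
  (134219780, .negSucc 0), (134219840, .ofNat 1), (134348801, .ofNat 1), (134348864, .negSucc
  0), (34359738373, .negSucc 0), (34359754756, .negSucc 0), (34359762944, .ofNat 1),
  (34361835521, .ofNat 1), (34361843712, .negSucc 0)]), (278530, []), (131074, [(131075, .ofNat
  2)]), (393218, []), (134348802, [(134348803, .ofNat 2)]), (262146, [(262147, .ofNat 2)]),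
  (134217730, [(134217731, .ofNat 2)]), (4, [(5, .ofNat 2)]), (2052, [(10304, .ofNat 1), (24578,
  .ofNat 1), (131075, .negSucc 0), (139266, .negSucc 0), (139328, .ofNat 1), (262147, .ofNat 1),
  (266241, .negSucc 0), (268288, .ofNat 1), (278530, .ofNat 1), (2101249, .ofNat 1), (2103296,
  .negSucc 0), (2107392, .negSucc 0), (67110916, .ofNat 1), (67125252, .negSucc 0), (67373056,
  .ofNat 1), (67387392, .negSucc 0), (134217733, .ofNat 1), (134219780, .ofNat 1), (134219840,
  .negSucc 0), (134348801, .negSucc 0), (134348864, .ofNat 1), (34359738373, .ofNat 1),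
  (34359754756, .ofNat 1), (34359762944, .negSucc 0), (34361835521, .negSucc 0), (34361843712,
  .ofNat 1)]), (67110916, []), (201328644, []), (134219780, []), (16388, []), (67125252, []),
  (34359754756, []), (67108868, []), (201326596, [(201328644, .negSucc 1)]), (134217732,
  [(134217733, .ofNat 2)]), (34493956100, []), (34359738372, [(34359738373, .ofNat 2)]), (64,
  [(134217729, .ofNat 2), (134217792, .negSucc 1)]), (2112, [(10304, .ofNat 1), (24578, .ofNat
  1), (131075, .negSucc 0), (139266, .negSucc 0), (139328, .ofNat 1), (262147, .ofNat 1),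
  (266241, .negSucc 0), (268288, .ofNat 1), (278530, .ofNat 1), (2101249, .ofNat 1), (2103296,
  .negSucc 0), (2107392, .negSucc 0), (67110916, .ofNat 1), (67125252, .negSucc 0), (67373056,
  .ofNat 1), (67387392, .negSucc 0), (134217733, .negSucc 0), (134219780, .negSucc 0),
  (134219840, .ofNat 1), (134348801, .negSucc 0), (134348864, .ofNat 1), (34359738373, .ofNat
  1), (34359754756, .ofNat 1), (34359762944, .negSucc 0), (34361835521, .negSucc 0),
  (34361843712, .ofNat 1)]), (10304, []), (134219840, []), (8256, [(10304, .negSucc 0), (24578,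
  .ofNat 1), (131075, .negSucc 0), (139266, .negSucc 0), (139328, .ofNat 1), (262147, .ofNat 1),
  (266241, .negSucc 0), (268288, .ofNat 1), (278530, .ofNat 1), (2101249, .ofNat 1), (2103296,
  .negSucc 0), (2107392, .ofNat 1), (67110916, .ofNat 1), (67125252, .negSucc 0), (67373056,
  .ofNat 1), (67387392, .negSucc 0), (134217733, .negSucc 0), (134219780, .negSucc 0),
  (134219840, .ofNat 1), (134348801, .negSucc 0), (134348864, .ofNat 1), (34359738373, .ofNat
  1), (34359754756, .ofNat 1), (34359762944, .negSucc 0), (34361835521, .ofNat 1), (34361843712,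
  .negSucc 0)]), (139328, []), (131136, [(134348801, .negSucc 1), (134348864, .ofNat 2)]),
  (134348864, []), (134217792, []), (2048, [(2097153, .ofNat 2), (2099200, .negSucc 1)]), (6144,
  [(2101249, .negSucc 1), (2103296, .ofNat 2)]), (14336, [(2111488, .negSucc 1)]), (2111488,
  []), (268288, []), (2103296, []), (10240, [(2107392, .ofNat 2), (34361835521, .ofNat 2),
  (34361843712, .negSucc 1)]), (2107392, []), (264192, [(266241, .ofNat 2), (268288, .negSucc
  1), (2101249, .negSucc 1), (2103296, .ofNat 2)]), (67373056, []), (2099200, []), (67110912,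
  [(10304, .negSucc 0), (24578, .negSucc 0), (131075, .ofNat 1), (139266, .ofNat 1), (139328,
  .negSucc 0), (262147, .negSucc 0), (266241, .ofNat 1), (268288, .negSucc 0), (278530, .negSucc
  0), (2101249, .negSucc 0), (2103296, .ofNat 1), (2107392, .ofNat 1), (67110916, .ofNat 1),
  (67125252, .ofNat 1), (67373056, .negSucc 0), (67387392, .ofNat 1), (134217733, .negSucc 0),
  (134219780, .negSucc 0), (134219840, .ofNat 1), (134348801, .ofNat 1), (134348864, .negSucc
  0), (34359738373, .negSucc 0), (34359754756, .negSucc 0), (34359762944, .ofNat 1),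
  (34361835521, .ofNat 1), (34361843712, .negSucc 0)]), (201328640, []), (134219776, [(10304,
  .negSucc 0), (24578, .negSucc 0), (131075, .ofNat 1), (139266, .ofNat 1), (139328, .negSucc
  0), (262147, .negSucc 0), (266241, .ofNat 1), (268288, .negSucc 0), (278530, .negSucc 0),
  (2101249, .negSucc 0), (2103296, .ofNat 1), (2107392, .ofNat 1), (67110916, .negSucc 0),
  (67125252, .ofNat 1), (67373056, .negSucc 0), (67387392, .ofNat 1), (134217733, .ofNat 1),
  (134219780, .ofNat 1), (134219840, .ofNat 1), (134348801, .ofNat 1), (134348864, .negSucc 0),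
  (34359738373, .negSucc 0), (34359754756, .negSucc 0), (34359762944, .ofNat 1), (34361835521,
  .ofNat 1), (34361843712, .negSucc 0)]), (4096, [(4097, .ofNat 2)]), (12288, [(2101249, .ofNat
  2), (2109440, .ofNat 2), (34361835521, .ofNat 2), (34361843712, .negSucc 1)]), (2109440, []),
  (266240, [(266241, .ofNat 2)]), (2101248, [(2101249, .ofNat 2)]), (8192, [(34359738369, .ofNat
  2), (34359746560, .negSucc 1)]), (24576, [(34359738373, .negSucc 1), (34359754756, .negSucc
  1), (34359762944, .ofNat 2)]), (2121728, [(34361860096, .negSucc 1)]), (34361860096, []),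
  (34359762944, []), (139264, [(10304, .ofNat 1), (24578, .negSucc 0), (131075, .ofNat 1),
  (139266, .ofNat 1), (139328, .ofNat 1), (262147, .negSucc 0), (266241, .ofNat 1), (268288,
  .negSucc 0), (278530, .negSucc 0), (2101249, .negSucc 0), (2103296, .ofNat 1), (2107392,
  .negSucc 0), (67110916, .negSucc 0), (67125252, .ofNat 1), (67373056, .negSucc 0), (67387392,
  .ofNat 1), (134217733, .ofNat 1), (134219780, .ofNat 1), (134219840, .negSucc 0), (134348801,
  .negSucc 0), (134348864, .ofNat 1), (34359738373, .negSucc 0), (34359754756, .negSucc 0),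
  (34359762944, .ofNat 1), (34361835521, .negSucc 0), (34361843712, .ofNat 1)]), (2105344,
  [(34361835521, .negSucc 1), (34361843712, .ofNat 2)]), (34361843712, []), (34359746560, []),
  (16384, [(5, .ofNat 2), (16388, .ofNat 2)]), (278528, [(10304, .ofNat 1), (24578, .ofNat 1),
  (131075, .negSucc 0), (139266, .negSucc 0), (139328, .ofNat 1), (262147, .ofNat 1), (266241,
  .ofNat 1), (268288, .negSucc 0), (278530, .ofNat 1), (2101249, .negSucc 0), (2103296, .ofNat
  1), (2107392, .negSucc 0), (67110916, .negSucc 0), (67125252, .ofNat 1), (67373056, .negSucc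
  0), (67387392, .ofNat 1), (134217733, .ofNat 1), (134219780, .ofNat 1), (134219840, .negSucc
  0), (134348801, .negSucc 0), (134348864, .ofNat 1), (34359738373, .ofNat 1), (34359754756,
  .ofNat 1), (34359762944, .negSucc 0), (34361835521, .negSucc 0), (34361843712, .ofNat 1)]),
  (67387392, []), (2113536, [(34359738373, .ofNat 2), (34359754756, .ofNat 2), (34361835521,
  .negSucc 1), (34361851904, .ofNat 2)]), (34361851904, []), (67125248, [(67125252, .ofNat 2)]),
  (34359754752, [(34359738373, .ofNat 2), (34359754756, .ofNat 2)]), (131072, [(131073, .ofNat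
  2)]), (393216, [(131075, .negSucc 1), (262147, .ofNat 2), (393218, .ofNat 2)]), (134348800,
  [(134348801, .ofNat 2)]), (262144, [(262145, .ofNat 2)]), (67371008, [(10304, .negSucc 0),
  (24578, .negSucc 0), (131075, .ofNat 1), (139266, .ofNat 1), (139328, .negSucc 0), (262147,
  .negSucc 0), (266241, .negSucc 0), (268288, .ofNat 1), (278530, .negSucc 0), (2101249, .ofNat
  1), (2103296, .negSucc 0), (2107392, .ofNat 1), (67110916, .ofNat 1), (67125252, .ofNat 1),
  (67373056, .ofNat 1), (67387392, .ofNat 1), (134217733, .negSucc 0), (134219780, .negSucc 0),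
  (134219840, .ofNat 1), (134348801, .ofNat 1), (134348864, .negSucc 0), (34359738373, .negSucc
  0), (34359754756, .negSucc 0), (34359762944, .ofNat 1), (34361835521, .ofNat 1), (34361843712,
  .negSucc 0)]), (2097152, [(2097153, .ofNat 2)]), (34361835520, [(34361835521, .ofNat 2)]),
  (67108864, [(5, .ofNat 2), (67108868, .ofNat 2)]), (201326592, [(67110916, .negSucc 1),
  (134217733, .ofNat 2), (134219780, .ofNat 2), (201328640, .ofNat 2)]), (134217728,
  [(134217729, .ofNat 2)]), (34493956096, [(134217733, .negSucc 1), (34359738373, .ofNat 2),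
  (34493956100, .ofNat 2)]), (34359738368, [(34359738369, .ofNat 2)])]

/-- state 22 -/
def t22 : Tr :=
  .n 5 (.c 26) (.n 10 (.c 12) (.n 24 (.c 13) (.n 30 (.c 16) (.n 34 (.c 27) (.n 6 (.n 13 (.c 15)
  (.n 15 (.c 32) (.c 27))) (.n 32 (.c 35) (.n 16 (.n 2 (.c 26) (.n 21 (.c 12) (.n 12 (.c 18) (.c
  26)))) (.n 12 (.c 15) (.n 21 (.c 13) (.n 18 (.n 19 (.c 1) (.c 15)) (.n 26 (.c 2) (.n 2 (.c 35)
  (.n 15 (.c 13) (.c 19))))))))))))))

/-- state 23 -/
def t23 : Tr :=
  .n 1 (.c 19) (.n 5 (.c 26) (.n 10 (.c 12) (.n 30 (.c 0) (.n 6 (.c 32) (.n 13 (.c 21) (.n 12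
  (.c 0) (.n 21 (.c 35) (.n 27 (.c 2) (.n 26 (.c 23) (.n 2 (.c 35) (.n 18 (.c 19) (.c
  35))))))))))))

/-- state 24 -/
def t24 : Tr :=
  .n 7 (.c 8) (.n 9 (.c 11) (.n 14 (.c 15) (.n 8 (.c 17) (.n 13 (.c 29) (.n 15 (.c 18) (.n 17
  (.c 20) (.n 20 (.c 11) (.n 24 (.c 29) (.n 22 (.c 18) (.n 18 (.c 16) (.n 3 (.c 27) (.n 28 (.c
  16) (.n 25 (.c 27) (.c 11))))))))))))))

/-- state 25 -/
def t25 : Tr :=
  .n 7 (.c 8) (.n 14 (.c 23) (.n 28 (.c 18) (.n 22 (.c 29) (.n 25 (.c 3) (.n 9 (.n 0 (.c 27) (.c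
  11)) (.n 0 (.c 17) (.n 11 (.c 20) (.n 20 (.c 17) (.n 27 (.c 17) (.n 3 (.c 18) (.n 8 (.c 13)
  (.c 29))))))))))))

/-- state 26 -/
def t26 : Tr :=
  .n 5 (.c 25) (.n 7 (.c 8) (.n 10 (.c 22) (.n 16 (.c 30) (.n 24 (.c 13) (.n 28 (.c 18) (.n 22
  (.c 29) (.n 25 (.c 3) (.n 34 (.c 27) (.n 9 (.n 13 (.c 15) (.n 15 (.c 32) (.c 27))) (.n 30 (.c
  20) (.n 32 (.c 8) (.n 8 (.n 15 (.c 13) (.c 19)) (.n 13 (.c 29) (.n 15 (.c 18) (.n 27 (.c 3)
  (.c 18))))))))))))))))

/-- state 27 -/
def t27 : Tr :=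
  .n 5 (.c 25) (.n 7 (.c 8) (.n 10 (.c 22) (.n 22 (.c 19) (.n 23 (.c 19) (.n 3 (.c 0) (.n 18 (.c
  0) (.n 25 (.c 0) (.n 27 (.c 0) (.n 20 (.c 29) (.n 28 (.c 0) (.n 30 (.c 0) (.n 9 (.c 32) (.n 29
  (.c 19) (.c 8))))))))))))))

/-- state 28 -/
def t28 : Tr :=
  .n 12 (.c 11) (.n 14 (.c 15) (.n 1 (.c 17) (.n 16 (.c 11) (.n 18 (.c 15) (.n 24 (.c 13) (.n 13
  (.c 15) (.n 26 (.c 11) (.n 27 (.c 34) (.n 28 (.c 11) (.n 29 (.c 15) (.n 11 (.c 3) (.n 3 (.c
  17) (.c 8)))))))))))))

/-- state 29 -/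
def t29 : Tr :=
  .n 14 (.c 23) (.n 17 (.c 1) (.n 28 (.c 18) (.n 12 (.c 29) (.n 26 (.c 3) (.n 35 (.c 8) (.n 0
  (.c 1) (.n 8 (.c 1) (.n 13 (.c 29) (.n 23 (.c 1) (.n 27 (.c 3) (.c 18)))))))))))

/-- state 30 -/
def t30 : Tr :=
  .n 5 (.c 26) (.n 10 (.c 12) (.n 24 (.c 13) (.n 28 (.c 18) (.n 12 (.c 29) (.n 26 (.c 3) (.n 16
  (.c 30) (.n 32 (.c 8) (.n 34 (.c 19) (.n 35 (.c 8) (.n 8 (.c 1) (.n 13 (.c 1) (.n 15 (.c 1)
  (.n 1 (.c 19) (.n 27 (.c 3) (.c 18)))))))))))))))

/-- state 31 -/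
def t31 : Tr :=
  .n 1 (.c 19) (.n 5 (.c 26) (.n 8 (.c 35) (.n 10 (.c 12) (.n 28 (.c 18) (.n 12 (.c 29) (.n 26
  (.c 3) (.n 23 (.c 19) (.n 3 (.c 0) (.n 18 (.c 0) (.n 27 (.c 0) (.n 30 (.c 0) (.n 29 (.c 19)
  (.c 35)))))))))))))

/-- the masks and the certificates of the states -/
def tabY : List (ℕ × Ct) :=
  [(27975207636, .g t0), (10786851541, .g t1), (33344292596, .g t2), (16155936501, .g t3),
  (62363261014, .g t4), (45174904919, .g t5), (67732345974, .g t6), (50543989879, .g t7),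
  (28778417048, .g t8), (11590060953, .g t9), (34147502008, .b l10 15608677144 T10),
  (16959145913, .g t11), (63166470426, .g t12), (45978114331, .g t13), (68535555386, .g t14),
  (51347199291, .g t15), (17372277444, .g t16), (183921349, .g t17), (22741362404, .g t18),
  (5553006309, .g t19), (51760330822, .g t20), (34571974727, .b l21 34563586119 T21),
  (57129415782, .g t22), (39941059687, .g t23), (18175486856, .g t24), (987130761, .g t25),
  (23544571816, .g t26), (6356215721, .g t27), (52563540234, .g t28), (35375184139, .g t29),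
  (57932625194, .g t30), (40744269099, .g t31)]

/-- a cocycle modulo two on state 21 -/
def ctY : List ℕ :=
  [8194, 16386, 8388610, 8256, 6144, 10240, 264192, 2099200, 139264, 278528, 8650752, 67371008]

/-- a cycle on state 21 -/
def zY : List (ℕ × ℤ) :=
  [(4097, .ofNat 1), (12288, .ofNat 1), (8194, .negSucc 0), (3, .negSucc 0)]

/-- the check of one certificate -/
def okc (nb : List ℕ) (N : ℕ) : Ct → ℕ → Bool
  | .g t, A => chk nb N t A
  | .b l B T, A => red nb N l A B && en nb (cell nb N B T) N B 0 0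

/-- the mask is the state with code `f` -/
def mok (cl : List ℕ) (sl : List Bool) (f A : ℕ) : ℕ → Bool
  | 0 => true
  | k + 1 => (A.testBit k == xor (sl.getD k false) (f.testBit (cl.getD k 0))) && mok cl sl f A k

/-- the check of all states, from code `f` on -/
def allc (nb : List ℕ) (N : ℕ) (cl : List ℕ) (sl : List Bool) : ℕ → List (ℕ × Ct) → Bool
  | _, [] => true
  | f, p :: l => (mok cl sl f p.1 N && okc nb N p.2 p.1) && allc nb N cl sl (f + 1) l

theorem cY1 : allc Y36.nbr 36 colY sgY 0 tabY = true := by decide +kernel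

theorem cY2 : badc Y36.nbr 36 34571974727 ctY zY = true := by decide +kernel

end Pool.LU.YC
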